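import Pool.Agent.L0h57.SP.Apx

/-!
# SP/UREP: representatives which are units over `w`
-/

set_option autoImplicit false
set_option linter.all false

open Polynomial IsDedekindDomain NumberField nonZeroDivisors
open scoped Classical

namespace Pool.Agent.L0h57.SP.UREP

open Pool.Agent.N783.PF
open Pool.Agent.N874.PP (Ev Sq1 U0)
open Pool.Agent.L0h94.SP
open Pool.Agent.L0h57.SP.APX

/-- scaling -/
theorem scale {k : Type} [Field k] (p : k[X]) (D : k) (hD : D ≠ 0) :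
    C (D ^ p.natDegree) * p.comp (C D⁻¹ * X) = p.scaleRoots D := by
  ext i
  rw [coeff_C_mul, comp_C_mul_X_coeff, coeff_scaleRoots]
  by_cases hi : i ≤ p.natDegree
  · have h1 : D ^ p.natDegree = D ^ (p.natDegree - i) * D ^ i := by
      rw [← pow_add, Nat.sub_add_cancel hi]
    rw [h1, inv_pow]
    field_simp
  · rw [coeff_eq_zero_of_natDegree_lt (not_le.1 hi)]
    ring

/-- a polynomial whose value at `D θ` is a unit over `w` -/
theorem coprime_scale (hI : S_INT) {F L : Type} [Field F] [NumberField F] [Field L]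
    [NumberField L] [Algebra F L] {g : ℕ} {f : (𝓞 F)[X]} {θ : L} (hG : IsGen g f θ)
    (hs : SqF g f) (w : HeightOneSpectrum (𝓞 F)) (D : ℕ) (hD : (D : 𝓞 F) ∉ w.asIdeal)
    (h : (𝓞 F)[X]) (hh : ∀ 𝔓 : HeightOneSpectrum (𝓞 L), Ov w.asIdeal 𝔓 →
      𝔓.valuation L (aeval ((D : L) * θ) (fF h)) = 1) :
    IsCoprime (rd w.asIdeal h) (rd w.asIdeal (f.scaleRoots ((D : ℕ) : 𝓞 F))) := by
  have hcomp : aeval θ (fF (h.comp (C (D : 𝓞 F) * X))) = aeval ((D : L) * θ) (fF h) := by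
    rw [fF, Polynomial.map_comp, Polynomial.map_mul, map_C, map_X, aeval_comp, map_mul, aeval_C,
      aeval_X]
    congr 2
    rw [map_natCast, map_natCast]
  obtain ⟨s, r, u, hr, h1⟩ := coprime_of hI hG hs w (h.comp (C (D : 𝓞 F) * X)) (by
    intro 𝔓 hO
    rw [hcomp]
    exact hh 𝔓 hO)
  haveI : w.asIdeal.IsMaximal := w.isMaximal
  letI : Field (𝓞 F ⧸ w.asIdeal) := Ideal.Quotient.field w.asIdeal
  set q := Ideal.Quotient.mk w.asIdeal with hq
  set c : 𝓞 F ⧸ w.asIdeal := q (D : 𝓞 F) with hc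
  have hc0 : c ≠ 0 := by
    rw [hc, hq, Ne, Ideal.Quotient.eq_zero_iff_mem]
    exact hD
  have h2 : 1 = (rd w.asIdeal h).comp (C c * X) * rd w.asIdeal s + rd w.asIdeal f * rd w.asIdeal u := by
    have h3 := congrArg (fun p : (𝓞 F)[X] => rd w.asIdeal p) h1
    simp only [rd, Polynomial.map_add, Polynomial.map_mul, Polynomial.map_one,
      Polynomial.map_comp, map_C, map_X] at h3
    rw [rd] at hr
    rw [hr, add_zero] at h3
    exact h3
  have h4 := congrArg (fun p : (𝓞 F ⧸ w.asIdeal)[X] => p.comp (C c⁻¹ * X)) h2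
  simp only [one_comp, add_comp, mul_comp] at h4
  have h5 : ((rd w.asIdeal h).comp (C c * X)).comp (C c⁻¹ * X) = rd w.asIdeal h := by
    rw [comp_assoc, mul_comp, C_comp, X_comp, ← mul_assoc, ← C_mul, mul_inv_cancel₀ hc0, C_1,
      one_mul, comp_X]
  rw [h5] at h4
  have h6 : rd w.asIdeal (f.scaleRoots ((D : ℕ) : 𝓞 F)) = (rd w.asIdeal f).scaleRoots c := by
    rw [rd, map_scaleRoots]
    rw [hG.mon.leadingCoeff, map_one]
    exact one_ne_zero
  have h7 := scale (rd w.asIdeal f) c hc0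
  have h8 : (rd w.asIdeal f).comp (C c⁻¹ * X) =
      C ((c ^ (rd w.asIdeal f).natDegree)⁻¹) * (rd w.asIdeal f).scaleRoots c := by
    rw [← h7, ← mul_assoc, ← C_mul, inv_mul_cancel₀ (pow_ne_zero _ hc0), C_1, one_mul]
  refine ⟨(rd w.asIdeal s).comp (C c⁻¹ * X),
    C ((c ^ (rd w.asIdeal f).natDegree)⁻¹) * (rd w.asIdeal u).comp (C c⁻¹ * X), ?_⟩
  rw [h6]
  rw [h8] at h4
  rw [h4]
  ring

/-- UREP -/
theorem t_UREP (hI : S_INT) : S_UREP := by
  intro g F L _ _ _ _ _ f θ hg hG hs w D hD α hα hev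
  have hfin := ov_fin (L := L) w
  have hy : ∀ 𝔓 : HeightOneSpectrum (𝓞 L), Ov w.asIdeal 𝔓 →
      ∃ y : L, y ≠ 0 ∧ 𝔓.valuation L α * 𝔓.valuation L y ^ 2 = 1 := by
    intro 𝔓 h
    obtain ⟨y, hy⟩ := hev 𝔓 h
    have hv : 𝔓.valuation L α ≠ 0 := (Valuation.ne_zero_iff _).2 hα
    have hy0 : y ≠ 0 := by
      rintro rfl
      rw [map_zero, zero_pow two_ne_zero] at hy
      exact hv hy
    refine ⟨y⁻¹, inv_ne_zero hy0, ?_⟩
    rw [hy, map_inv₀, inv_pow, mul_inv_cancel₀]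
    rw [← hy]
    exact hv
  choose! y hy0 hy1 using hy
  obtain ⟨t₀, ht0, ht⟩ := wa_rel hfin.toFinset y (fun 𝔓 h => hy0 𝔓 (hfin.mem_toFinset.1 h))
  have hβ : ∀ 𝔓 : HeightOneSpectrum (𝓞 L), Ov w.asIdeal 𝔓 → 𝔓.valuation L (α * t₀ ^ 2) = 1 := by
    intro 𝔓 h
    rw [map_mul, map_pow, Valuation.map_eq_of_sub_lt _ (ht 𝔓 (hfin.mem_toFinset.2 h))]
    exact hy1 𝔓 h
  obtain ⟨d, hd, hdi⟩ := exists_den w (α * t₀ ^ 2) (fun 𝔓 h => (hβ 𝔓 h).le)
  obtain ⟨v, hv⟩ := (hI g F L f θ hG hs _).1 hdi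
  have hD0 : (D : L) ≠ 0 := by
    intro h0
    apply hD
    have h1 : D = 0 := by exact_mod_cast h0
    rw [h1, Nat.cast_zero]
    exact zero_mem _
  have hd0 : algebraMap F L (d : F) ≠ 0 := by
    rw [Ne, map_eq_zero_iff _ (algebraMap F L).injective]
    intro h0
    apply hd
    have h1 : d = 0 := by exact_mod_cast h0
    rw [h1]
    exact zero_mem _
  obtain ⟨h, hh⟩ : ∃ h : (𝓞 F)[X], h = ∑ i : Fin (2 * g + 1),
      C (d * v i * (D : 𝓞 F) ^ (2 * g - (i : ℕ))) * X ^ (i : ℕ) := ⟨_, rfl⟩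
  have hval : aeval ((D : L) * θ) (fF h) =
      α * (t₀ * (algebraMap F L (d : F) * (D : L) ^ g)) ^ 2 := by
    have h1 : aeval ((D : L) * θ) (fF h) =
        algebraMap F L (d : F) * (D : L) ^ (2 * g) * ∑ i : Fin (2 * g + 1),
          algebraMap F L (v i : F) * θ ^ (i : ℕ) := by
      rw [hh, fF, Polynomial.map_sum, map_sum, Finset.mul_sum]
      refine Finset.sum_congr rfl fun i _ => ?_
      rw [Polynomial.map_mul, map_C, Polynomial.map_pow, map_X, map_mul, aeval_C, map_pow, aeval_X,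
        map_mul, map_mul, map_mul, map_mul, map_pow, map_pow, map_natCast, map_natCast, mul_pow]
      have h2 : (D : L) ^ (2 * g) = (D : L) ^ (2 * g - (i : ℕ)) * (D : L) ^ (i : ℕ) := by
        rw [← pow_add, Nat.sub_add_cancel (by omega)]
      rw [h2]
      show algebraMap F L (d : F) * algebraMap F L (v i : F) * (D : L) ^ (2 * g - (i : ℕ)) *
        ((D : L) ^ (i : ℕ) * θ ^ (i : ℕ)) = _
      ring
    rw [h1, ← hv]
    ring
  have hunit : ∀ 𝔓 : HeightOneSpectrum (𝓞 L), Ov w.asIdeal 𝔓 →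
      𝔓.valuation L (aeval ((D : L) * θ) (fF h)) = 1 := by
    intro 𝔓 hO
    have e1 : α * (t₀ * (algebraMap F L (d : F) * (D : L) ^ g)) ^ 2 =
        (α * t₀ ^ 2) * (algebraMap F L (d : F)) ^ 2 * ((D : L) ^ g) ^ 2 := by ring
    have e2 : 𝔓.valuation L (D : L) = 1 := by
      have h2 := val_unit (L := L) hO hD
      have h3 : algebraMap F L ((D : 𝓞 F) : F) = (D : L) := by
        rw [show ((D : 𝓞 F) : F) = (D : F) by norm_cast, map_natCast]
      rwa [h3] at h2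
    rw [hval, e1, map_mul, map_mul, map_pow, map_pow, map_pow, hβ 𝔓 hO, val_unit hO hd, e2]
    simp
  refine ⟨t₀ * (algebraMap F L (d : F) * (D : L) ^ g), h,
    mul_ne_zero ht0 (mul_ne_zero hd0 (pow_ne_zero _ hD0)), hval, hunit,
    coprime_scale hI hG hs w D hD h hunit⟩

end Pool.Agent.L0h57.SP.UREP
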