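import Pool.Agent.L0h94.SP.StmB
import Pool.Agent.N862.PF.SD

/-!
# SP: weak approximation, denominators prime to `w`, polynomials in `θ`
-/

set_option autoImplicit false
set_option linter.all false

open Polynomial IsDedekindDomain NumberField nonZeroDivisors
open scoped Classical

namespace Pool.Agent.L0h57.SP.APX

open Pool.Agent.N783.PF
open Pool.Agent.N874.PP (Ev Sq1 U0)
open Pool.Agent.L0h94.SP
open Pool.Agent.N862.PF (theta_ex top_int int_of_top theta_int)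

section val

variable {L : Type} [Field L] [NumberField L]

theorem int_iff (x : L) : IsIntegral ℤ x ↔ ∃ z : 𝓞 L, algebraMap (𝓞 L) L z = x :=
  IsIntegralClosure.isIntegral_iff (A := 𝓞 L)

theorem int_val (x : L) :
    IsIntegral ℤ x ↔ ∀ 𝔓 : HeightOneSpectrum (𝓞 L), 𝔓.valuation L x ≤ 1 := by
  rw [int_iff]
  constructor
  · rintro ⟨z, rfl⟩ 𝔓
    exact 𝔓.valuation_le_one z
  · intro h
    exact HeightOneSpectrum.mem_integers_of_valuation_le_one L x h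

theorem exists_exp (γ : WithZero (Multiplicative ℤ)) : ∃ n : ℕ, γ ≤ WithZero.exp (n : ℤ) := by
  rcases eq_or_ne γ 0 with rfl | h
  · exact ⟨0, zero_le'⟩
  · refine ⟨(WithZero.log γ).toNat, ?_⟩
    rw [← WithZero.exp_log h, WithZero.exp_le_exp]
    rw [WithZero.log_exp]
    exact Int.self_le_toNat _

theorem exists_expS (S : Finset (HeightOneSpectrum (𝓞 L)))
    (w : HeightOneSpectrum (𝓞 L) → L) :
    ∃ n : ℕ, ∀ 𝔔 ∈ S, 𝔔.valuation L (w 𝔔) ≤ WithZero.exp (n : ℤ) := by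
  choose k hk using fun 𝔔 : HeightOneSpectrum (𝓞 L) => exists_exp (𝔔.valuation L (w 𝔔))
  refine ⟨S.sup k, fun 𝔔 h => (hk 𝔔).trans ?_⟩
  rw [WithZero.exp_le_exp]
  exact_mod_cast Finset.le_sup (f := k) h

/-- weak approximation -/
theorem wa (S : Finset (HeightOneSpectrum (𝓞 L))) (x : HeightOneSpectrum (𝓞 L) → L) (N : ℕ) :
    ∃ t : L, ∀ 𝔓 ∈ S, 𝔓.valuation L (t - x 𝔓) ≤ WithZero.exp (-(N : ℤ)) := by
  obtain ⟨⟨b, hb⟩, hbx⟩ := IsLocalization.exist_integer_multiples (𝓞 L)⁰ S x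
  have hb0 : b ≠ 0 := nonZeroDivisors.ne_zero hb
  have hbL : algebraMap (𝓞 L) L b ≠ 0 := by
    rwa [ne_eq, FaithfulSMul.algebraMap_eq_zero_iff]
  have hbx' : ∀ 𝔓 ∈ S, ∃ z : 𝓞 L, algebraMap (𝓞 L) L z = algebraMap (𝓞 L) L b * x 𝔓 := by
    intro 𝔓 h
    obtain ⟨z, hz⟩ := hbx 𝔓 h
    refine ⟨z, ?_⟩
    rw [hz]
    exact Algebra.smul_def _ _
  choose! z hz using hbx'
  obtain ⟨m, hm⟩ := exists_expS S (fun _ => (algebraMap (𝓞 L) L b)⁻¹)
  obtain ⟨y, hy⟩ := IsDedekindDomain.exists_forall_sub_mem_ideal (s := S)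
    (fun 𝔓 : HeightOneSpectrum (𝓞 L) => 𝔓.asIdeal) (fun _ => N + m)
    (fun 𝔓 _ => 𝔓.prime) (fun 𝔓 _ 𝔔 _ h h' => h (HeightOneSpectrum.ext h'))
    (fun 𝔓 => z 𝔓.1)
  refine ⟨algebraMap (𝓞 L) L y / algebraMap (𝓞 L) L b, fun 𝔓 h => ?_⟩
  have e1 : algebraMap (𝓞 L) L y / algebraMap (𝓞 L) L b - x 𝔓 =
      algebraMap (𝓞 L) L (y - z 𝔓) * (algebraMap (𝓞 L) L b)⁻¹ := by
    rw [map_sub, hz 𝔓 h]
    field_simp
  rw [e1, map_mul]
  have h1 : 𝔓.valuation L (algebraMap (𝓞 L) L (y - z 𝔓)) ≤ WithZero.exp (-((N + m : ℕ) : ℤ)) := by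
    rw [HeightOneSpectrum.valuation_of_algebraMap, HeightOneSpectrum.intValuation_le_pow_iff_mem]
    exact hy 𝔓 h
  calc _ ≤ WithZero.exp (-((N + m : ℕ) : ℤ)) * WithZero.exp (m : ℤ) := mul_le_mul' h1 (hm 𝔓 h)
    _ = WithZero.exp (-(N : ℤ)) := by
      rw [← WithZero.exp_add]
      congr 1
      push_cast
      ring

/-- weak approximation: relative form -/
theorem wa_rel (S : Finset (HeightOneSpectrum (𝓞 L))) (x : HeightOneSpectrum (𝓞 L) → L)
    (hx : ∀ 𝔓 ∈ S, x 𝔓 ≠ 0) :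
    ∃ t : L, t ≠ 0 ∧ ∀ 𝔓 ∈ S, 𝔓.valuation L (t - x 𝔓) < 𝔓.valuation L (x 𝔓) := by
  obtain ⟨n, hn⟩ := exists_expS S (fun 𝔓 => (x 𝔓)⁻¹)
  obtain ⟨t, ht⟩ := wa S x (n + 1)
  have key : ∀ 𝔓 ∈ S, 𝔓.valuation L (t - x 𝔓) < 𝔓.valuation L (x 𝔓) := by
    intro 𝔓 h
    have h0 : 𝔓.valuation L (x 𝔓) ≠ 0 := (Valuation.ne_zero_iff _).2 (hx 𝔓 h)
    have h1 := hn 𝔓 h
    rw [map_inv₀] at h1
    have h2 : WithZero.exp (-(n : ℤ)) ≤ 𝔓.valuation L (x 𝔓) := by
      rw [WithZero.exp_neg]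
      exact inv_le_of_inv_le₀ (zero_lt_iff.2 h0) h1
    refine lt_of_le_of_lt (ht 𝔓 h) (lt_of_lt_of_le ?_ h2)
    rw [WithZero.exp_lt_exp]
    push_cast
    omega
  by_cases h0 : t = 0
  · refine ⟨1, one_ne_zero, fun 𝔓 h => ?_⟩
    have h1 := key 𝔓 h
    rw [h0, zero_sub, Valuation.map_neg] at h1
    exact absurd h1 (lt_irrefl _)
  · exact ⟨t, h0, key⟩

end val

section ovr

variable {F L : Type} [Field F] [NumberField F] [Field L] [NumberField L] [Algebra F L]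

theorem notmem {w : HeightOneSpectrum (𝓞 F)} {𝔓 : HeightOneSpectrum (𝓞 L)}
    (h : Ov w.asIdeal 𝔓) {a : 𝓞 F} (ha : a ∉ w.asIdeal) :
    algebraMap (𝓞 F) (𝓞 L) a ∉ 𝔓.asIdeal := by
  intro h1
  have h2 : w.asIdeal ≤ 𝔓.asIdeal.comap (algebraMap (𝓞 F) (𝓞 L)) := h
  have h3 : 𝔓.asIdeal.comap (algebraMap (𝓞 F) (𝓞 L)) ≠ ⊤ := Ideal.comap_ne_top _ 𝔓.isPrime.ne_top
  have h4 := w.isMaximal.eq_of_le h3 h2
  rw [h4] at ha
  exact ha h1

theorem val_unit {w : HeightOneSpectrum (𝓞 F)} {𝔓 : HeightOneSpectrum (𝓞 L)}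
    (h : Ov w.asIdeal 𝔓) {a : 𝓞 F} (ha : a ∉ w.asIdeal) :
    𝔓.valuation L (algebraMap F L (a : F)) = 1 := by
  have h1 : algebraMap F L (a : F) = algebraMap (𝓞 L) L (algebraMap (𝓞 F) (𝓞 L) a) := rfl
  rw [h1]
  exact (HeightOneSpectrum.valuation_eq_one_iff_notMem 𝔓).2 (notmem h ha)

/-- the primes over `w` -/
theorem ov_fin (w : HeightOneSpectrum (𝓞 F)) :
    {𝔓 : HeightOneSpectrum (𝓞 L) | Ov w.asIdeal 𝔓}.Finite := by
  obtain ⟨a, ha, ha0⟩ := Submodule.exists_mem_ne_zero_of_ne_bot w.ne_bot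
  refine (HeightOneSpectrum.Support.finite (𝓞 L) ((algebraMap F L (a : F))⁻¹)).subset ?_
  intro 𝔓 h
  have h1 := h a ha
  have h2 : 𝔓.valuation L (algebraMap F L (a : F)) < 1 := by
    have h3 : algebraMap F L (a : F) = algebraMap (𝓞 L) L (algebraMap (𝓞 F) (𝓞 L) a) := rfl
    rw [h3]
    exact (HeightOneSpectrum.valuation_lt_one_iff_mem 𝔓 _).2 h1
  have h0 : algebraMap F L (a : F) ≠ 0 := by
    rw [Ne, map_eq_zero_iff _ (algebraMap F L).injective]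
    exact_mod_cast ha0
  have h4 : 0 < 𝔓.valuation L (algebraMap F L (a : F)) :=
    zero_lt_iff.2 ((Valuation.ne_zero_iff _).2 h0)
  show 1 < 𝔓.valuation L ((algebraMap F L (a : F))⁻¹)
  rw [map_inv₀]
  exact (one_lt_inv₀ h4).2 h2

/-- an element of `F` prime to `w` and small at finitely many primes not over `w` -/
theorem exists_smallF (w : HeightOneSpectrum (𝓞 F)) (n : ℕ)
    (S : Finset (HeightOneSpectrum (𝓞 L))) (hS : ∀ 𝔔 ∈ S, ¬ Ov w.asIdeal 𝔔) :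
    ∃ d : 𝓞 F, d ∉ w.asIdeal ∧
      ∀ 𝔔 ∈ S, 𝔔.valuation L (algebraMap F L (d : F)) ≤ WithZero.exp (-(n : ℤ)) := by
  induction S using Finset.induction_on with
  | empty => exact ⟨1, fun h => w.isPrime.ne_top ((Ideal.eq_top_iff_one _).2 h), by simp⟩
  | insert 𝔔 S hQ ih =>
    obtain ⟨b, hb1, hb2⟩ := ih (fun 𝔔 h => hS 𝔔 (Finset.mem_insert_of_mem h))
    obtain ⟨a, ha1, ha2⟩ : ∃ a : 𝓞 F, algebraMap (𝓞 F) (𝓞 L) a ∈ 𝔔.asIdeal ∧ a ∉ w.asIdeal := by
      by_contra hcon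
      push Not at hcon
      have h1 : 𝔔.asIdeal.comap (algebraMap (𝓞 F) (𝓞 L)) ≤ w.asIdeal := fun a ha => hcon a ha
      haveI := 𝔔.isPrime
      have h2 : (𝔔.asIdeal.comap (algebraMap (𝓞 F) (𝓞 L))).IsPrime := Ideal.comap_isPrime _ _
      have h3 : 𝔔.asIdeal.comap (algebraMap (𝓞 F) (𝓞 L)) ≠ ⊥ :=
        Ideal.under_ne_bot (𝓞 F) 𝔔.ne_bot
      have h4 := h2.isMaximal h3
      have h5 := h4.eq_of_le w.isPrime.ne_top h1
      apply hS 𝔔 (Finset.mem_insert_self _ _)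
      intro a ha
      rw [← h5] at ha
      exact ha
    refine ⟨a ^ n * b, ?_, ?_⟩
    · intro h
      rcases w.isPrime.mem_or_mem h with h | h
      · exact ha2 (w.isPrime.mem_of_pow_mem n h)
      · exact hb1 h
    · intro 𝔔' h
      have e1 : algebraMap F L ((a ^ n * b : 𝓞 F) : F) =
          algebraMap (𝓞 L) L (algebraMap (𝓞 F) (𝓞 L) a ^ n) * algebraMap F L (b : F) := by
        show algebraMap F L (algebraMap (𝓞 F) F (a ^ n * b)) = _
        rw [map_mul, map_mul, map_pow, map_pow, map_pow]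
        rfl
      rw [e1, map_mul]
      rcases Finset.mem_insert.1 h with rfl | h
      · have h1 : 𝔔'.valuation L (algebraMap (𝓞 L) L (algebraMap (𝓞 F) (𝓞 L) a ^ n)) ≤
            WithZero.exp (-(n : ℤ)) := by
          rw [HeightOneSpectrum.valuation_of_algebraMap,
            HeightOneSpectrum.intValuation_le_pow_iff_mem]
          exact Ideal.pow_mem_pow ha1 n
        calc _ ≤ WithZero.exp (-(n : ℤ)) * 1 :=
              mul_le_mul' h1 (𝔔'.valuation_le_one (K := L) (algebraMap (𝓞 F) (𝓞 L) b))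
          _ = _ := mul_one _
      · calc _ ≤ 1 * WithZero.exp (-(n : ℤ)) :=
              mul_le_mul' (𝔔'.valuation_le_one _) (hb2 𝔔' h)
          _ = _ := one_mul _

/-- denominators prime to `w` -/
theorem exists_den (w : HeightOneSpectrum (𝓞 F)) (β : L)
    (hβ : ∀ 𝔓 : HeightOneSpectrum (𝓞 L), Ov w.asIdeal 𝔓 → 𝔓.valuation L β ≤ 1) :
    ∃ d : 𝓞 F, d ∉ w.asIdeal ∧ IsIntegral ℤ (algebraMap F L (d : F) * β) := by
  have hfin := HeightOneSpectrum.Support.finite (𝓞 L) β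
  obtain ⟨n, hn⟩ := exists_expS hfin.toFinset (fun _ => β)
  obtain ⟨d, hd1, hd2⟩ := exists_smallF w n hfin.toFinset (by
    intro 𝔔 h h'
    rw [Set.Finite.mem_toFinset] at h
    exact absurd (hβ 𝔔 h') (not_le.2 h))
  refine ⟨d, hd1, ?_⟩
  rw [int_val]
  intro 𝔔
  rw [map_mul]
  by_cases h : 𝔔 ∈ hfin.toFinset
  · calc _ ≤ WithZero.exp (-(n : ℤ)) * WithZero.exp (n : ℤ) := mul_le_mul' (hd2 𝔔 h) (hn 𝔔 h)
      _ = 1 := by rw [← WithZero.exp_add, neg_add_cancel, WithZero.exp_zero]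
  · have h1 : 𝔔.valuation L β ≤ 1 := by
      by_contra hcon
      exact h (by rw [Set.Finite.mem_toFinset]; exact not_le.1 hcon)
    have h2 : 𝔔.valuation L (algebraMap F L (d : F)) ≤ 1 :=
      𝔔.valuation_le_one (K := L) (algebraMap (𝓞 F) (𝓞 L) d)
    calc _ ≤ (1 : WithZero (Multiplicative ℤ)) * 1 := mul_le_mul' h2 h1
      _ = 1 := mul_one _

variable {g : ℕ} {f : (𝓞 F)[X]} {θ : L}

/-- `f` divides the polynomials which vanish at `θ` -/
theorem dvd_of (hG : IsGen g f θ) {p : (𝓞 F)[X]} (hp : aeval θ (fF p) = 0) : f ∣ p := by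
  rw [← Polynomial.modByMonic_eq_zero_iff_dvd hG.mon]
  apply Polynomial.map_injective (algebraMap (𝓞 F) F) (FaithfulSMul.algebraMap_injective _ _)
  rw [Polynomial.map_modByMonic _ hG.mon, Polynomial.map_zero]
  have hmon : (fF f).Monic := hG.mon.map _
  have hdeg : (fF f).natDegree = 2 * g + 1 := by
    rw [fF, hG.mon.natDegree_map]; exact hG.deg
  set r := fF p %ₘ fF f with hr
  have hr0 : aeval θ r = 0 := by
    have h1 := Polynomial.modByMonic_add_div (fF p) (fF f)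
    have h2 := congrArg (aeval θ) h1
    rw [map_add, map_mul, hG.root, zero_mul, add_zero, hp] at h2
    exact h2
  have hd : r.natDegree < 2 * g + 1 := by
    have h1 := Polynomial.natDegree_modByMonic_lt (fF p) hmon (by
      intro h
      rw [h, natDegree_one] at hdeg
      omega)
    rw [hdeg] at h1
    exact h1
  rw [Polynomial.aeval_eq_sum_range' hd, ← Fin.sum_univ_eq_sum_range
    (fun i => r.coeff i • θ ^ i)] at hr0
  have hl : LinearIndependent F (fun i : Fin (2 * g + 1) => θ ^ (i : ℕ)) := by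
    have := hG.basis.linearIndependent
    have e : ⇑hG.basis = fun i : Fin (2 * g + 1) => θ ^ (i : ℕ) := funext fun i => hG.basis_apply i
    rwa [e] at this
  have h1 := Fintype.linearIndependent_iff.1 hl _ hr0
  ext i
  rw [coeff_zero]
  by_cases hi : i < 2 * g + 1
  · exact h1 ⟨i, hi⟩
  · exact coeff_eq_zero_of_natDegree_lt (by omega)

/-- integral elements are polynomials in `θ` -/
theorem exists_poly (hI : S_INT) (hG : IsGen g f θ) (hs : SqF g f) {x : L} (hx : IsIntegral ℤ x) :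
    ∃ p : (𝓞 F)[X], aeval θ (fF p) = x := by
  obtain ⟨v, hv⟩ := (hI g F L f θ hG hs x).1 hx
  refine ⟨∑ i, C (v i) * X ^ (i : ℕ), ?_⟩
  rw [hv, fF, Polynomial.map_sum, map_sum]
  refine Finset.sum_congr rfl fun i _ => ?_
  rw [Polynomial.map_mul, map_C, Polynomial.map_pow, map_X, map_mul, aeval_C, map_pow, aeval_X]

/-- if the value at `θ` is integral and a unit over `w` then the polynomial is prime to `f`
modulo `w` -/
theorem coprime_of (hI : S_INT) (hG : IsGen g f θ) (hs : SqF g f) (w : HeightOneSpectrum (𝓞 F))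
    (H : (𝓞 F)[X]) (hH : ∀ 𝔓 : HeightOneSpectrum (𝓞 L), Ov w.asIdeal 𝔓 →
      𝔓.valuation L (aeval θ (fF H)) = 1) :
    ∃ s r u : (𝓞 F)[X], rd w.asIdeal r = 0 ∧ 1 = H * s + r + f * u := by
  obtain ⟨t, ht⟩ := theta_ex hG
  have hev : ∀ p : (𝓞 F)[X], ∃ z : 𝓞 L, algebraMap (𝓞 L) L z = aeval θ (fF p) := by
    intro p
    refine ⟨aeval t p, ?_⟩
    rw [fF, aeval_map_algebraMap, ← ht, aeval_algebraMap_apply]
  obtain ⟨γ, hγ⟩ := hev H
  -- the ideal is the whole ring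
  have htop : Ideal.span {γ} ⊔ w.asIdeal.map (algebraMap (𝓞 F) (𝓞 L)) = ⊤ := by
    by_contra hne
    obtain ⟨M, hM, hle⟩ := Ideal.exists_le_maximal _ hne
    have hw : w.asIdeal.map (algebraMap (𝓞 F) (𝓞 L)) ≤ M := le_sup_right.trans hle
    have hM0 : M ≠ ⊥ := by
      intro h0
      obtain ⟨a, ha, ha0⟩ := Submodule.exists_mem_ne_zero_of_ne_bot w.ne_bot
      have h1 := hw (Ideal.mem_map_of_mem _ ha)
      rw [h0, Ideal.mem_bot, map_eq_zero_iff _ (FaithfulSMul.algebraMap_injective _ _)] at h1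
      exact ha0 h1
    let 𝔓 : HeightOneSpectrum (𝓞 L) := ⟨M, hM.isPrime, hM0⟩
    have hO : Ov w.asIdeal 𝔓 := fun a ha => hw (Ideal.mem_map_of_mem _ ha)
    have h1 := hH 𝔓 hO
    rw [← hγ] at h1
    have h2 : γ ∉ 𝔓.asIdeal := (HeightOneSpectrum.valuation_eq_one_iff_notMem 𝔓).1 h1
    exact h2 (hle (Ideal.mem_sup_left (Ideal.mem_span_singleton_self γ)))
  obtain ⟨x, hx, ρ, hρ, hxρ⟩ := Submodule.mem_sup.1
    (show (1 : 𝓞 L) ∈ Ideal.span {γ} ⊔ w.asIdeal.map (algebraMap (𝓞 F) (𝓞 L)) by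
      rw [htop]; trivial)
  obtain ⟨δ, hδ⟩ := Ideal.mem_span_singleton'.1 hx
  obtain ⟨s, hs'⟩ := exists_poly hI hG hs (x := algebraMap (𝓞 L) L δ) ((int_iff _).2 ⟨δ, rfl⟩)
  have hr : ∀ ρ ∈ w.asIdeal.map (algebraMap (𝓞 F) (𝓞 L)),
      ∃ r : (𝓞 F)[X], rd w.asIdeal r = 0 ∧ aeval θ (fF r) = algebraMap (𝓞 L) L ρ := by
    intro ρ hρ
    unfold Ideal.map at hρ
    induction hρ using Submodule.span_induction with
    | mem x hx =>
      obtain ⟨a, ha, rfl⟩ := hx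
      refine ⟨C a, ?_, ?_⟩
      · rw [rd, map_C, Ideal.Quotient.eq_zero_iff_mem.2 ha, C_0]
      · rw [fF, map_C, aeval_C]
        rfl
    | zero => exact ⟨0, by simp [rd], by simp [fF]⟩
    | add x y _ _ hx hy =>
      obtain ⟨r1, h1, h1'⟩ := hx
      obtain ⟨r2, h2, h2'⟩ := hy
      refine ⟨r1 + r2, ?_, ?_⟩
      · rw [rd, Polynomial.map_add]
        rw [rd] at h1 h2
        rw [h1, h2, add_zero]
      · rw [fF, Polynomial.map_add, map_add, map_add]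
        rw [fF] at h1' h2'
        rw [h1', h2']
    | smul a x _ hx =>
      obtain ⟨r1, h1, h1'⟩ := hx
      obtain ⟨p, hp⟩ := exists_poly hI hG hs (x := algebraMap (𝓞 L) L a) ((int_iff _).2 ⟨a, rfl⟩)
      refine ⟨p * r1, ?_, ?_⟩
      · rw [rd, Polynomial.map_mul]
        rw [rd] at h1
        rw [h1, mul_zero]
      · rw [fF, Polynomial.map_mul, map_mul, smul_eq_mul, map_mul]
        rw [fF] at h1' hp
        rw [h1', hp]
  obtain ⟨r, hr1, hr2⟩ := hr ρ hρ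
  obtain ⟨u, hu⟩ := dvd_of hG (p := 1 - H * s - r) (by
    have h1 : aeval θ (fF (1 - H * s - r)) =
        1 - aeval θ (fF H) * aeval θ (fF s) - aeval θ (fF r) := by
      simp only [fF, Polynomial.map_sub, Polynomial.map_mul, Polynomial.map_one, map_sub, map_mul,
        map_one]
    rw [h1, hs', hr2, ← hγ, ← map_mul, ← map_one (algebraMap (𝓞 L) L), ← map_sub, ← map_sub,
      ← hxρ, ← hδ]
    have h2 : δ * γ + ρ - γ * δ - ρ = 0 := by ring
    rw [h2, map_zero])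
  exact ⟨s, r, u, hr1, by rw [← hu]; ring⟩

end ovr

end Pool.Agent.L0h57.SP.APX
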