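import Pool.Agent.L0h94.SP.StmA
import Pool.Agent.N255.PF.Red

/-!
# SP/REDM: small linearly independent vectors in a lattice

Edit of `Pool/Agent/N255/PF/Red.lean` (helper255).
-/

set_option autoImplicit false
set_option linter.all false

open Polynomial IsDedekindDomain Matrix NumberField
open scoped Classical

namespace Pool.Agent.L0h57.SP.RED

open Pool.Agent.N783.PF
open Pool.Agent.N507.PQ (q cR diag_eq pd_iff det_cR)
open Pool.Agent.N255.PF
open Pool.Agent.L0h94.SP

/-- Small linearly independent vectors in a lattice. -/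
theorem t_REDM (hDIS : S_DISM) : S_REDM := by
  intro g m hm F _ _
  obtain ⟨C₁, hC₁⟩ := hDIS g m hm F
  set d := Module.finrank ℚ F with hd
  have hd0 : 0 < d := Module.finrank_pos
  obtain ⟨C₂, hC₂, hHRB⟩ := Pool.Agent.N507.PQ.hrb ((2 * g + 1) * d)
  set K : ℝ := max 1 (C₂ * C₁) with hK
  refine ⟨⌈K⌉₊, ?_⟩
  intro L _ _ _ f θ hG α Λ hα hΛ
  obtain ⟨b, hb, hbΛ, hbd⟩ := hC₁ L f θ hG α Λ hα hΛ
  set D : L := α * aeval θ (derivative (fF f)) with hD
  have hD0 : D ≠ 0 := mul_ne_zero hα (deriv_ne hG)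
  have hfr : Module.finrank ℚ L = (2 * g + 1) * d := by
    rw [← Module.finrank_mul_finrank ℚ F L, hG.rank, mul_comm]
  obtain ⟨hpd, hdet⟩ := main_det hfr D hD0 b hb
  obtain ⟨U, hU, hmono, hprod⟩ := hHRB (gram D b) hpd
  have hdet1 : (gram D b).det ≤ C₁ := by
    rw [hdet]
    exact_mod_cast hbd
  -- the new basis
  set b' : Fin ((2 * g + 1) * d) → L := fun j => ∑ i, (U i j : L) * b i with hb'
  have hHH : ∀ j, ((U.map (Int.cast : ℤ → ℝ))ᵀ * gram D b * U.map (Int.cast : ℤ → ℝ)) j j =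
      HH f θ α (b' j) := by
    intro j
    have h1 := diag_eq (gram D b) U j
    rw [show ((U.map (Int.cast : ℤ → ℝ))ᵀ * gram D b * U.map (Int.cast : ℤ → ℝ)) j j =
      q (gram D b) (fun i => (U i j : ℝ)) from h1, q_gram]
    unfold HH
    refine Finset.sum_congr rfl fun τ _ => ?_
    rw [← hD]
    congr 2
    rw [hb']
    simp only [map_sum, map_mul, map_intCast, Complex.ofReal_intCast]
  simp only [hHH] at hmono hprod
  have hb'li : LinearIndependent ℚ b' := by
    rw [Fintype.linearIndependent_iff]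
    intro c hc
    have h1 : ∑ i, ((U.map (Int.cast : ℤ → ℚ)) *ᵥ c) i • b i = 0 := by
      rw [← hc, hb']
      simp only [Matrix.mulVec, dotProduct, Matrix.map_apply, Finset.sum_smul, Finset.smul_sum]
      rw [Finset.sum_comm]
      refine Finset.sum_congr rfl fun j _ => ?_
      refine Finset.sum_congr rfl fun i _ => ?_
      rw [Algebra.smul_def, Algebra.smul_def, map_mul]
      simp only [map_intCast]
      ring
    have h2 := Fintype.linearIndependent_iff.1 hb _ h1
    have h3 : (U.map (Int.cast : ℤ → ℚ)).det ≠ 0 := by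
      have h4 : (U.map (Int.cast : ℤ → ℚ)).det = ((U.det : ℤ) : ℚ) :=
        ((Int.castRingHom ℚ).map_det U).symm
      rw [h4]
      exact_mod_cast hU.ne_zero
    have h5 := Matrix.eq_zero_of_mulVec_eq_zero h3 (funext h2)
    intro i
    exact congrFun h5 i
  have hb'Λ : ∀ j, b' j ∈ Λ := fun j => (hbΛ _).2 ⟨fun i => U i j, rfl⟩
  -- the choice
  obtain ⟨j, hj, hjli⟩ := greedy (2 * g + 1) d hd.symm hd0 b' hb'li (2 * g + 1) le_rfl
  have hHH0 : ∀ x : L, 0 ≤ HH f θ α x := fun x =>
    Finset.sum_nonneg fun τ _ => div_nonneg (sq_nonneg _) (norm_nonneg _)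
  set v : Fin (2 * g + 1) → ℝ := fun i => HH f θ α (b' (j i)) with hv
  have hpow : (∏ i, v i) ^ d ≤ C₂ * C₁ := by
    have h1 : (∏ i, v i) ^ d ≤ ∏ k, HH f θ α (b' k) := by
      rw [← Finset.prod_pow, ← Equiv.prod_comp finProdFinEquiv, Fintype.prod_prod_type]
      refine Finset.prod_le_prod (fun i _ => pow_nonneg (hHH0 _) _) fun i _ => ?_
      have h2 : ∀ k : Fin d, v i ≤ HH f θ α (b' (finProdFinEquiv (i, k))) := by
        intro k
        refine hmono ?_
        rw [Fin.le_def, finProdFinEquiv_apply_val]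
        have := hj i
        show (j i : ℕ) ≤ k + d * i
        rw [mul_comm d]
        omega
      calc v i ^ d = ∏ _k : Fin d, v i := by
            rw [Finset.prod_const, Finset.card_univ, Fintype.card_fin]
        _ ≤ _ := Finset.prod_le_prod (fun k _ => hHH0 _) fun k _ => h2 k
    exact h1.trans (hprod.trans (mul_le_mul_of_nonneg_left hdet1 hC₂.le))
  have hfin : ∏ i, v i ≤ (⌈K⌉₊ : ℝ) := by
    refine le_trans ?_ (Nat.le_ceil K)
    have h0 : 0 ≤ ∏ i, v i := Finset.prod_nonneg fun i _ => hHH0 _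
    rcases le_total (∏ i, v i) 1 with h | h
    · exact h.trans (le_max_left _ _)
    · calc ∏ i, v i = (∏ i, v i) ^ 1 := (pow_one _).symm
        _ ≤ (∏ i, v i) ^ d := pow_le_pow_right₀ h hd0
        _ ≤ C₂ * C₁ := hpow
        _ ≤ K := le_max_right _ _
  -- sorting
  set σ := Tuple.sort v with hσ
  refine ⟨fun i => b' (j (σ i)), fun i => hb'Λ _, ?_, ?_, ?_⟩
  · exact hjli.comp σ σ.injective
  · exact Tuple.monotone_sort v
  · refine le_trans (le_of_eq ?_) hfin
    exact Equiv.prod_comp σ v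

end Pool.Agent.L0h57.SP.RED
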