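import Pool.Agent.L0h94.SP.StmB

/-!
# SP/RT: the reduction of a cubic polynomial whose discriminant is not divisible by `𝔭 ^ 2`
-/

set_option autoImplicit false
set_option linter.all false

open Polynomial IsDedekindDomain NumberField
open scoped Classical

namespace Pool.Agent.L0h57.SP.RT

open Pool.Agent.N783.PF
open Pool.Agent.L0h94.SP

/-- over a perfect field a cubic polynomial which is not separable has a double root -/
theorem double {k : Type} [Field k] [PerfectField k] {f : k[X]} (hf : f.Monic)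
    (hd : f.natDegree = 3) (hs : ¬ f.Separable) :
    ∃ a b : k, f = (X - C a) ^ 2 * (X - C b) := by
  rw [PerfectField.separable_iff_squarefree, squarefree_iff_no_irreducibles hf.ne_zero] at hs
  push Not at hs
  obtain ⟨p, hp, g, hg⟩ := hs
  have hp0 : p ≠ 0 := hp.ne_zero
  have hg0 : g ≠ 0 := by
    rintro rfl
    rw [mul_zero] at hg
    exact hf.ne_zero hg
  have h1 : 2 * p.natDegree + g.natDegree = 3 := by
    have h2 := congrArg natDegree hg
    rw [natDegree_mul (mul_ne_zero hp0 hp0) hg0, natDegree_mul hp0 hp0, hd] at h2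
    omega
  have h2 : 0 < p.natDegree := hp.natDegree_pos
  have h3 : p.natDegree = 1 := by omega
  have h4 : g.natDegree = 1 := by omega
  obtain ⟨u, v, hu, hpe⟩ : ∃ u v : k, u ≠ 0 ∧ p = C u * (X - C v) := by
    refine ⟨p.coeff 1, -(p.coeff 0 / p.coeff 1), ?_, ?_⟩
    · intro h
      have h5 := p.coeff_natDegree
      rw [h3, h] at h5
      exact hp0 (leadingCoeff_eq_zero.1 h5.symm)
    · have h6 : p.coeff 1 ≠ 0 := by
        intro h
        have h5 := p.coeff_natDegree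
        rw [h3, h] at h5
        exact hp0 (leadingCoeff_eq_zero.1 h5.symm)
      conv_lhs => rw [eq_X_add_C_of_natDegree_le_one h3.le]
      rw [C_neg, sub_neg_eq_add, mul_add, ← C_mul, mul_div_cancel₀ _ h6]
  obtain ⟨u', v', hu', hge⟩ : ∃ u v : k, u ≠ 0 ∧ g = C u * (X - C v) := by
    have h6 : g.coeff 1 ≠ 0 := by
      intro h
      have h5 := g.coeff_natDegree
      rw [h4, h] at h5
      exact hg0 (leadingCoeff_eq_zero.1 h5.symm)
    refine ⟨g.coeff 1, -(g.coeff 0 / g.coeff 1), h6, ?_⟩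
    conv_lhs => rw [eq_X_add_C_of_natDegree_le_one h4.le]
    rw [C_neg, sub_neg_eq_add, mul_add, ← C_mul, mul_div_cancel₀ _ h6]
  refine ⟨v, v', ?_⟩
  have h7 : f = C (u * u * u') * ((X - C v) ^ 2 * (X - C v')) := by
    rw [hg, hpe, hge, C_mul, C_mul]
    ring
  have h8 : ((X - C v) ^ 2 * (X - C v')).Monic := ((monic_X_sub_C v).pow 2).mul (monic_X_sub_C v')
  have h9 : u * u * u' = 1 := by
    have h10 := congrArg leadingCoeff h7
    rw [leadingCoeff_mul, leadingCoeff_C, h8.leadingCoeff, mul_one, hf.leadingCoeff] at h10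
    exact h10.symm
  rw [h7, h9, C_1, one_mul]

theorem coeffs {R : Type} [CommRing R] (n e : R) :
    ((X - C n) ^ 2 * (X - C e) : R[X]).coeff 2 = -(2 * n + e) ∧
    ((X - C n) ^ 2 * (X - C e) : R[X]).coeff 1 = n ^ 2 + 2 * n * e ∧
    ((X - C n) ^ 2 * (X - C e) : R[X]).coeff 0 = -(n ^ 2 * e) := by
  have h1 : ((X - C n) ^ 2 * (X - C e) : R[X]) =
      X ^ 3 + C (-(2 * n + e)) * X ^ 2 + C (n ^ 2 + 2 * n * e) * X + C (-(n ^ 2 * e)) := by
    simp only [C_neg, C_add, C_mul, C_pow, C_ofNat]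
    ring
  rw [h1]
  generalize -(2 * n + e) = a
  generalize n ^ 2 + 2 * n * e = b
  generalize -(n ^ 2 * e) = c
  refine ⟨?_, ?_, ?_⟩
  · simp [coeff_X, coeff_X_pow, coeff_C]
  · simp [coeff_X, coeff_X_pow, coeff_C]
  · simp [coeff_X, coeff_X_pow, coeff_C]

theorem dsc_eq {F : Type} [Field F] [NumberField F] (f : (𝓞 F)[X]) (hf : f.Monic)
    (hd : f.natDegree = 3) :
    dsc 1 f = -(f.coeff 2 ^ 2 * f.coeff 1 ^ 2 - 4 * f.coeff 1 ^ 3 - 4 * f.coeff 2 ^ 3 * f.coeff 0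
      - 27 * f.coeff 0 ^ 2 + 18 * f.coeff 2 * f.coeff 1 * f.coeff 0) := by
  have h1 : f.degree = 3 := by
    rw [degree_eq_natDegree hf.ne_zero, hd]
    rfl
  have h2 := Polynomial.resultant_deriv (f := f) (by rw [h1]; norm_num)
  have h3 := Polynomial.discr_of_degree_eq_three h1
  have h4 : f.coeff 3 = 1 := by
    rw [← hd]
    exact hf.coeff_natDegree
  rw [hd, hf.leadingCoeff, h3, h4] at h2
  unfold dsc
  norm_num at h2 ⊢
  rw [h2]

/-- RT -/
theorem t_RT : S_RT := by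
  intro F _ _ f hf hd w h2 hdsc
  by_cases hs : (rd w.asIdeal f).Separable
  · exact Or.inl hs
  right
  haveI : w.asIdeal.IsMaximal := w.isMaximal
  letI : Field (𝓞 F ⧸ w.asIdeal) := Ideal.Quotient.field w.asIdeal
  haveI : Finite (𝓞 F ⧸ w.asIdeal) := Ideal.finiteQuotientOfFreeOfNeBot _ w.ne_bot
  have hm : (rd w.asIdeal f).Monic := hf.map _
  have hdd : (rd w.asIdeal f).natDegree = 3 := by
    rw [hf.natDegree_map, hd]
  obtain ⟨a, b, hab⟩ := double hm hdd hs
  obtain ⟨n, rfl⟩ := Ideal.Quotient.mk_surjective a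
  obtain ⟨e, rfl⟩ := Ideal.Quotient.mk_surjective b
  have hred : rd w.asIdeal f = rd w.asIdeal ((X - C n) ^ 2 * (X - C e)) := by
    rw [hab]
    simp [rd, Polynomial.map_mul, Polynomial.map_pow, Polynomial.map_sub]
  refine ⟨n, e, ?_, hred⟩
  intro hne
  apply hdsc
  -- the coefficients
  have hc : ∀ j, f.coeff j - ((X - C n) ^ 2 * (X - C e) : (𝓞 F)[X]).coeff j ∈ w.asIdeal := by
    intro j
    rw [← Ideal.Quotient.mk_eq_mk_iff_sub_mem]
    have h3 : (rd w.asIdeal f).coeff j =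
        (rd w.asIdeal ((X - C n) ^ 2 * (X - C e))).coeff j := by rw [hred]
    rwa [rd, rd, coeff_map, coeff_map] at h3
  obtain ⟨c2, c1, c0⟩ := coeffs n e
  have k2 := hc 2
  have k1 := hc 1
  have k0 := hc 0
  rw [c2] at k2
  rw [c1] at k1
  rw [c0] at k0
  rw [dsc_eq f hf hd]
  set A := f.coeff 2 with hA
  set B := f.coeff 1 with hB
  set D := f.coeff 0 with hD
  obtain ⟨P, hP⟩ : ∃ P, P = 3 * n + A := ⟨_, rfl⟩
  obtain ⟨Q, hQ⟩ : ∃ Q, Q = 3 * n ^ 2 + 2 * A * n + B := ⟨_, rfl⟩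
  obtain ⟨R, hR⟩ : ∃ R, R = n ^ 3 + A * n ^ 2 + B * n + D := ⟨_, rfl⟩
  have hP' : P ∈ w.asIdeal := by
    have : P = (A - -(2 * n + e)) - (e - n) := by rw [hP]; ring
    rw [this]
    exact Ideal.sub_mem _ k2 hne
  have hQ' : Q ∈ w.asIdeal := by
    have : Q = (B - (n ^ 2 + 2 * n * e)) + 2 * n * (A - -(2 * n + e)) := by rw [hQ]; ring
    rw [this]
    exact Ideal.add_mem _ k1 (Ideal.mul_mem_left _ _ k2)
  have hR' : R ∈ w.asIdeal := by
    have : R = (D - -(n ^ 2 * e)) + n * (B - (n ^ 2 + 2 * n * e)) +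
        n ^ 2 * (A - -(2 * n + e)) := by rw [hR]; ring
    rw [this]
    exact Ideal.add_mem _ (Ideal.add_mem _ k0 (Ideal.mul_mem_left _ _ k1))
      (Ideal.mul_mem_left _ _ k2)
  have hid : -(A ^ 2 * B ^ 2 - 4 * B ^ 3 - 4 * A ^ 3 * D - 27 * D ^ 2 + 18 * A * B * D) =
      -((P * P) * (Q * Q) - (4 * Q) * (Q * Q) - (4 * P * R) * (P * P) - 27 * (R * R) +
        (18 * R) * (P * Q)) := by
    rw [hP, hQ, hR]
    ring
  rw [hid, sq]
  have hPP := Ideal.mul_mem_mul hP' hP'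
  have hQQ := Ideal.mul_mem_mul hQ' hQ'
  have hRR := Ideal.mul_mem_mul hR' hR'
  have hPQ := Ideal.mul_mem_mul hP' hQ'
  refine neg_mem (Ideal.add_mem _ (Ideal.sub_mem _ (Ideal.sub_mem _ (Ideal.sub_mem _ ?_ ?_) ?_) ?_) ?_)
  · exact Ideal.mul_mem_left _ _ hQQ
  · exact Ideal.mul_mem_left _ _ hQQ
  · exact Ideal.mul_mem_left _ _ hPP
  · exact Ideal.mul_mem_left _ _ hRR
  · exact Ideal.mul_mem_left _ _ hPQ

end Pool.Agent.L0h57.SP.RT
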