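import Pool.Agent.L0h94.SP.StmA
import Pool.Agent.N862.PF.SD

/-!
# SP/SDM: the lattice of the `x` with `x ^ 2 / α` integral

The valuations of `α` are even at the primes not dividing `m`.
-/

set_option autoImplicit false
set_option linter.all false

open Polynomial IsDedekindDomain Matrix NumberField nonZeroDivisors
open scoped Classical

namespace Pool.Agent.L0h57.SP

open Pool.Agent.N783.PF
open Pool.Agent.N874.PP (Ev Sq1 U0)
open Pool.Agent.L0h94.SP
open Pool.Agent.N862.PF (theta_ex top_int int_of_top)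

section val

variable {L : Type} [Field L] [NumberField L]

theorem int_iff (x : L) : IsIntegral ℤ x ↔ ∃ z : 𝓞 L, algebraMap (𝓞 L) L z = x :=
  IsIntegralClosure.isIntegral_iff (A := 𝓞 L)

theorem int_val (x : L) :
    IsIntegral ℤ x ↔ ∀ 𝔓 : HeightOneSpectrum (𝓞 L), 𝔓.valuation L x ≤ 1 := by
  rw [int_iff]
  constructor
  · rintro ⟨z, rfl⟩ 𝔓
    exact 𝔓.valuation_le_one z
  · intro h
    exact HeightOneSpectrum.mem_integers_of_valuation_le_one L x h

theorem exists_exp (γ : WithZero (Multiplicative ℤ)) : ∃ n : ℕ, γ ≤ WithZero.exp (n : ℤ) := by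
  rcases eq_or_ne γ 0 with rfl | h
  · exact ⟨0, zero_le'⟩
  · refine ⟨(WithZero.log γ).toNat, ?_⟩
    rw [← WithZero.exp_log h, WithZero.exp_le_exp]
    rw [WithZero.log_exp]
    exact Int.self_le_toNat _

theorem exists_expS (S : Finset (HeightOneSpectrum (𝓞 L))) (w : L) :
    ∃ n : ℕ, ∀ 𝔔 ∈ S, 𝔔.valuation L w ≤ WithZero.exp (n : ℤ) := by
  choose k hk using fun 𝔔 : HeightOneSpectrum (𝓞 L) => exists_exp (𝔔.valuation L w)
  refine ⟨S.sup k, fun 𝔔 h => (hk 𝔔).trans ?_⟩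
  rw [WithZero.exp_le_exp]
  exact_mod_cast Finset.le_sup (f := k) h

/-- an element which is a unit at `𝔓` and small at finitely many other primes -/
theorem exists_small (𝔓 : HeightOneSpectrum (𝓞 L)) (n : ℕ)
    (S : Finset (HeightOneSpectrum (𝓞 L))) (hS : 𝔓 ∉ S) :
    ∃ b : 𝓞 L, 𝔓.valuation L (algebraMap (𝓞 L) L b) = 1 ∧
      ∀ 𝔔 ∈ S, 𝔔.valuation L (algebraMap (𝓞 L) L b) ≤ WithZero.exp (-(n : ℤ)) := by
  induction S using Finset.induction_on with
  | empty => exact ⟨1, by simp, by simp⟩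
  | insert 𝔔 S hQ ih =>
    obtain ⟨b, hb1, hb2⟩ := ih (fun h => hS (Finset.mem_insert_of_mem h))
    have hne : 𝔔 ≠ 𝔓 := fun h => hS (h ▸ Finset.mem_insert_self _ _)
    obtain ⟨a, ha1, ha2⟩ : ∃ a ∈ 𝔔.asIdeal, a ∉ 𝔓.asIdeal := by
      by_contra hcon
      push Not at hcon
      have h1 : 𝔔.asIdeal ≤ 𝔓.asIdeal := hcon
      have h2 := 𝔔.isMaximal.eq_of_le 𝔓.isPrime.ne_top h1
      exact hne (HeightOneSpectrum.ext h2)
    refine ⟨a ^ n * b, ?_, ?_⟩
    · rw [map_mul, map_mul, hb1, mul_one, map_pow, map_pow,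
        (HeightOneSpectrum.valuation_eq_one_iff_notMem 𝔓).2 ha2, one_pow]
    · intro 𝔔' h
      rw [map_mul, map_mul]
      rcases Finset.mem_insert.1 h with rfl | h
      · have h1 : 𝔔'.valuation L (algebraMap (𝓞 L) L (a ^ n)) ≤ WithZero.exp (-(n : ℤ)) := by
          rw [HeightOneSpectrum.valuation_of_algebraMap,
            HeightOneSpectrum.intValuation_le_pow_iff_mem]
          exact Ideal.pow_mem_pow ha1 n
        calc _ ≤ WithZero.exp (-(n : ℤ)) * 1 :=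
              mul_le_mul' h1 (𝔔'.valuation_le_one b)
          _ = _ := mul_one _
      · calc _ ≤ 1 * WithZero.exp (-(n : ℤ)) :=
              mul_le_mul' (𝔔'.valuation_le_one _) (hb2 𝔔' h)
          _ = _ := one_mul _

theorem sq_iff {α : L} (hα : α ≠ 0) (𝔓 : HeightOneSpectrum (𝓞 L)) (x : L) :
    𝔓.valuation L (x ^ 2 / α) ≤ 1 ↔ 𝔓.valuation L x ^ 2 ≤ 𝔓.valuation L α := by
  rw [map_div₀, map_pow]
  exact div_le_one₀ (zero_lt_iff.2 ((Valuation.ne_zero_iff _).2 hα))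

/-- elements of the lattice with given valuation at `𝔓` -/
theorem exists_mem {α : L} (hα : α ≠ 0) (𝔓 : HeightOneSpectrum (𝓞 L)) (x₀ : L)
    (h0 : 𝔓.valuation L x₀ ^ 2 ≤ 𝔓.valuation L α) :
    ∃ x : L, 𝔓.valuation L x = 𝔓.valuation L x₀ ∧ IsIntegral ℤ (x ^ 2 / α) := by
  set w : L := x₀ ^ 2 / α with hw
  have hfin := HeightOneSpectrum.Support.finite (𝓞 L) w
  set S : Finset (HeightOneSpectrum (𝓞 L)) := hfin.toFinset.erase 𝔓 with hS
  obtain ⟨n, hn⟩ := exists_expS S w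
  obtain ⟨b, hb1, hb2⟩ := exists_small 𝔓 n S (Finset.notMem_erase _ _)
  refine ⟨x₀ * algebraMap (𝓞 L) L b, by rw [map_mul, hb1, mul_one], ?_⟩
  rw [int_val]
  intro 𝔔
  by_cases hQ : 𝔔 = 𝔓
  · subst hQ
    rw [sq_iff hα, map_mul, hb1, mul_one]
    exact h0
  have e1 : (x₀ * algebraMap (𝓞 L) L b) ^ 2 / α =
      w * algebraMap (𝓞 L) L b * algebraMap (𝓞 L) L b := by
    rw [hw]
    ring
  rw [e1, map_mul, map_mul]
  have hb := 𝔔.valuation_le_one (K := L) b
  by_cases hQS : 𝔔 ∈ S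
  · calc _ ≤ WithZero.exp (n : ℤ) * WithZero.exp (-(n : ℤ)) * 1 :=
          mul_le_mul' (mul_le_mul' (hn 𝔔 hQS) (hb2 𝔔 hQS)) hb
      _ = 1 := by rw [mul_one, ← WithZero.exp_add, add_neg_cancel, WithZero.exp_zero]
  · have h1 : 𝔔.valuation L w ≤ 1 := by
      by_contra hcon
      apply hQS
      rw [hS, Finset.mem_erase, Set.Finite.mem_toFinset]
      exact ⟨hQ, not_le.1 hcon⟩
    calc _ ≤ (1 : WithZero (Multiplicative ℤ)) * 1 * 1 := mul_le_mul' (mul_le_mul' h1 hb) hb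
      _ = 1 := by rw [mul_one, mul_one]

/-- the best valuation of an element of the lattice at `𝔓` -/
theorem exists_best {α : L} (hα : α ≠ 0) (𝔓 : HeightOneSpectrum (𝓞 L)) :
    ∃ x₀ : L, x₀ ≠ 0 ∧ 𝔓.valuation L x₀ ^ 2 ≤ 𝔓.valuation L α ∧
      𝔓.valuation L α ≤ 𝔓.valuation L x₀ ^ 2 * WithZero.exp 1 ∧
      (Ev 𝔓 α → 𝔓.valuation L α = 𝔓.valuation L x₀ ^ 2) := by
  have hv : 𝔓.valuation L α ≠ 0 := (Valuation.ne_zero_iff _).2 hα
  by_cases hE : Ev 𝔓 α
  · obtain ⟨y, hy⟩ := hE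
    refine ⟨y, ?_, hy.ge, ?_, fun _ => hy⟩
    · rintro rfl
      rw [map_zero, zero_pow two_ne_zero] at hy
      exact hv hy
    · rw [hy]
      refine le_mul_of_one_le_right' ?_
      rw [← WithZero.exp_zero, WithZero.exp_le_exp]
      norm_num
  · obtain ⟨x₀, hx₀⟩ := 𝔓.valuation_surjective L (WithZero.exp (WithZero.log (𝔓.valuation L α) / 2))
    have h2 : 𝔓.valuation L α = WithZero.exp (WithZero.log (𝔓.valuation L α)) :=
      (WithZero.exp_log hv).symm
    have h3 : 𝔓.valuation L x₀ ^ 2 = WithZero.exp (2 * (WithZero.log (𝔓.valuation L α) / 2)) := by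
      rw [hx₀, sq, ← WithZero.exp_add]
      congr 1
      ring
    refine ⟨x₀, ?_, ?_, ?_, fun h => absurd h hE⟩
    · rintro rfl
      rw [map_zero] at hx₀
      exact WithZero.exp_ne_zero hx₀.symm
    · rw [h3]
      conv_rhs => rw [h2]
      rw [WithZero.exp_le_exp]
      omega
    · rw [h3, ← WithZero.exp_add]
      conv_lhs => rw [h2]
      rw [WithZero.exp_le_exp]
      omega

theorem mul4 (a b c d : WithZero (Multiplicative ℤ)) :
    a * 1 * (b * c * d) = a * c * (b * d) := by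
  rw [mul_one, mul_comm b c, mul_assoc c b d, ← mul_assoc a c]

/-- duality -/
theorem dual_of {α : L} (hα : α ≠ 0) {m : ℕ}
    (hm : ∀ 𝔓 : HeightOneSpectrum (𝓞 L), ¬ Ev 𝔓 α → (m : 𝓞 L) ∈ 𝔓.asIdeal) {y : L}
    (hy : ∀ x : L, IsIntegral ℤ (x ^ 2 / α) → IsIntegral ℤ (x * y / α)) :
    IsIntegral ℤ (((m : L) * y) ^ 2 / α) := by
  rw [int_val]
  intro 𝔓
  rw [sq_iff hα]
  obtain ⟨x₀, hx0, h1, h2, h3⟩ := exists_best hα 𝔓
  obtain ⟨x, hx1, hx2⟩ := exists_mem hα 𝔓 x₀ h1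
  have h4 := (int_val _).1 (hy x hx2) 𝔓
  have hv : 𝔓.valuation L α ≠ 0 := (Valuation.ne_zero_iff _).2 hα
  rw [map_div₀, map_mul, hx1, div_le_one₀ (zero_lt_iff.2 hv)] at h4
  have hx0' : 𝔓.valuation L x₀ ≠ 0 := (Valuation.ne_zero_iff _).2 hx0
  -- `v(x₀)² v(y)² ≤ v(α)²`
  have h5 : 𝔓.valuation L x₀ ^ 2 * 𝔓.valuation L y ^ 2 ≤ 𝔓.valuation L α * 𝔓.valuation L α := by
    rw [← mul_pow, sq]
    exact mul_le_mul' h4 h4
  have h6 : 𝔓.valuation L (m : L) ≤ 1 := by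
    have := 𝔓.valuation_le_one (K := L) (m : 𝓞 L)
    simpa using this
  rw [map_mul, mul_pow]
  have hx2' : 0 < 𝔓.valuation L x₀ ^ 2 := zero_lt_iff.2 (pow_ne_zero _ hx0')
  refine le_of_mul_le_mul_left ?_ hx2'
  by_cases hE : Ev 𝔓 α
  · have h7 := h3 hE
    calc 𝔓.valuation L x₀ ^ 2 * (𝔓.valuation L (m : L) ^ 2 * 𝔓.valuation L y ^ 2)
        = 𝔓.valuation L (m : L) ^ 2 * (𝔓.valuation L x₀ ^ 2 * 𝔓.valuation L y ^ 2) :=
          mul_left_comm _ _ _
      _ ≤ 1 * (𝔓.valuation L α * 𝔓.valuation L α) := mul_le_mul' (pow_le_one' h6 2) h5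
      _ = 𝔓.valuation L x₀ ^ 2 * 𝔓.valuation L α := by rw [one_mul, ← h7]
  · have h7 : 𝔓.valuation L (m : L) ≤ WithZero.exp (-1) := by
      have h8 : 𝔓.intValuation (m : 𝓞 L) ≤ WithZero.exp (-((1 : ℕ) : ℤ)) := by
        rw [HeightOneSpectrum.intValuation_le_pow_iff_mem, pow_one]
        exact hm 𝔓 hE
      rw [← HeightOneSpectrum.valuation_of_algebraMap (K := L)] at h8
      simpa using h8
    calc 𝔓.valuation L x₀ ^ 2 * (𝔓.valuation L (m : L) ^ 2 * 𝔓.valuation L y ^ 2)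
        = 𝔓.valuation L (m : L) ^ 2 * (𝔓.valuation L x₀ ^ 2 * 𝔓.valuation L y ^ 2) :=
          mul_left_comm _ _ _
      _ ≤ (WithZero.exp (-1) * 1) * (𝔓.valuation L α * 𝔓.valuation L α) := by
          refine mul_le_mul' ?_ h5
          rw [sq]
          exact mul_le_mul' h7 h6
      _ ≤ (WithZero.exp (-1) * 1) * ((𝔓.valuation L x₀ ^ 2 * WithZero.exp 1) *
            𝔓.valuation L α) := mul_le_mul' le_rfl (mul_le_mul' h2 le_rfl)
      _ = (WithZero.exp (-1) * WithZero.exp 1) * (𝔓.valuation L x₀ ^ 2 * 𝔓.valuation L α) :=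
          mul4 _ _ _ _
      _ = 𝔓.valuation L x₀ ^ 2 * 𝔓.valuation L α := by
          rw [← WithZero.exp_add, neg_add_cancel, WithZero.exp_zero, one_mul]

/-- the lattice, as a module over the integers of `L` -/
def KK (α : L) : Submodule (𝓞 L) L where
  carrier := {x | α ≠ 0 ∧ IsIntegral ℤ (x ^ 2 / α)} ∪ {0}
  add_mem' := by
    rintro x y (⟨hα, hx⟩ | hx) (⟨_, hy⟩ | hy)
    · left
      refine ⟨hα, ?_⟩
      rw [int_val] at hx hy ⊢
      intro 𝔓
      have hx' := hx 𝔓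
      have hy' := hy 𝔓
      rw [sq_iff hα] at hx' hy' ⊢
      rcases le_max_iff.1 (𝔓.valuation L |>.map_add x y) with h | h
      · exact (pow_le_pow_left' h 2).trans hx'
      · exact (pow_le_pow_left' h 2).trans hy'
    · left
      rw [Set.mem_singleton_iff] at hy
      rw [hy, add_zero]
      exact ⟨hα, hx⟩
    · left
      rename_i hα
      rw [Set.mem_singleton_iff] at hx
      rw [hx, zero_add]
      exact ⟨hα, hy⟩
    · right
      rw [Set.mem_singleton_iff] at hx hy ⊢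
      rw [hx, hy, add_zero]
  zero_mem' := Or.inr rfl
  smul_mem' := by
    rintro a x (⟨hα, hx⟩ | hx)
    · left
      refine ⟨hα, ?_⟩
      have h1 : (a • x) ^ 2 / α = algebraMap (𝓞 L) L (a ^ 2) * (x ^ 2 / α) := by
        rw [Algebra.smul_def, map_pow]
        ring
      rw [h1]
      exact ((int_iff _).2 ⟨a ^ 2, rfl⟩).mul hx
    · right
      rw [Set.mem_singleton_iff] at hx ⊢
      rw [hx, smul_zero]

theorem mem_KK {α : L} (hα : α ≠ 0) (x : L) : x ∈ KK α ↔ IsIntegral ℤ (x ^ 2 / α) := by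
  constructor
  · rintro (⟨_, h⟩ | h)
    · exact h
    · rw [Set.mem_singleton_iff] at h
      rw [h, zero_pow two_ne_zero, zero_div]
      exact isIntegral_zero
  · exact fun h => Or.inl ⟨hα, h⟩

end val

/-- SDM -/
theorem t_SDM (hI : S_INT) : S_SDM := by
  intro g m F L _ _ _ _ _ f θ hc hs hm0 α hα hev
  have hint := hI g F L f θ hc hs
  obtain ⟨t, ht⟩ := theta_ex hc
  -- products
  have hprod : ∀ x ∈ KK α, ∀ y ∈ KK α, IsIntegral ℤ (x * y / α) := by
    intro x hx y hy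
    rw [mem_KK hα] at hx hy
    have h1 : (x * y / α) ^ 2 = (x ^ 2 / α) * (y ^ 2 / α) := by
      field_simp
    refine IsIntegral.of_pow two_pos ?_
    rw [h1]
    exact hx.mul hy
  -- the denominator
  obtain ⟨n, d, hd0, hnd⟩ : ∃ n d : 𝓞 L, d ≠ 0 ∧ α * algebraMap (𝓞 L) L d = algebraMap (𝓞 L) L n := by
    obtain ⟨⟨n, d⟩, h⟩ := IsLocalization.surj (𝓞 L)⁰ α
    exact ⟨n, d, nonZeroDivisors.ne_zero d.2, h⟩
  have hdL : algebraMap (𝓞 L) L d ≠ 0 := by
    rwa [ne_eq, FaithfulSMul.algebraMap_eq_zero_iff]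
  have hn0 : n ≠ 0 := by
    rintro rfl
    rw [map_zero, mul_eq_zero] at hnd
    exact hnd.elim hα hdL
  have hnL : algebraMap (𝓞 L) L n ≠ 0 := by
    rwa [ne_eq, FaithfulSMul.algebraMap_eq_zero_iff]
  have hfrac : IsFractional (𝓞 L)⁰ (KK α) := by
    refine ⟨d, mem_nonZeroDivisors_of_ne_zero hd0, fun b hb => ?_⟩
    rw [mem_KK hα] at hb
    obtain ⟨z, hz⟩ := (int_iff (d • b)).1 (by
      refine IsIntegral.of_pow two_pos ?_
      have h1 : (d • b) ^ 2 = algebraMap (𝓞 L) L (n * d) * (b ^ 2 / α) := by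
        rw [Algebra.smul_def, map_mul, ← hnd]
        field_simp
      rw [h1]
      exact ((int_iff _).2 ⟨n * d, rfl⟩).mul hb)
    exact ⟨z, hz⟩
  let I : FractionalIdeal (𝓞 L)⁰ L := ⟨KK α, hfrac⟩
  have hI' : (I : Submodule (𝓞 L) L) = KK α := rfl
  let Λ : Submodule (𝓞 F) L := (I : Submodule (𝓞 L) L).restrictScalars (𝓞 F)
  have hΛ : ∀ x : L, x ∈ Λ ↔ x ∈ KK α := fun x => Iff.rfl
  refine ⟨Λ, ?_, ?_⟩
  · intro x
    rw [hΛ, mem_KK hα]
  · constructor
    · haveI : IsNoetherian (𝓞 L) (I : Submodule (𝓞 L) L) := FractionalIdeal.isNoetherian I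
      haveI : Module.Finite (𝓞 L) (I : Submodule (𝓞 L) L) := inferInstance
      haveI h2 : Module.Finite (𝓞 F) (I : Submodule (𝓞 L) L) := Module.Finite.trans (𝓞 L) _
      haveI h3 : Module.Finite (𝓞 F) Λ := h2
      exact Module.Finite.iff_fg.1 h3
    · intro x
      obtain ⟨y, hy, hy0⟩ : ∃ y ∈ KK α, y ≠ 0 := by
        refine ⟨algebraMap (𝓞 L) L n, ?_, hnL⟩
        rw [mem_KK hα]
        have h1 : algebraMap (𝓞 L) L n ^ 2 / α = algebraMap (𝓞 L) L (n * d) := by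
          rw [map_mul, div_eq_iff hα, sq]
          calc _ = algebraMap (𝓞 L) L n * (α * algebraMap (𝓞 L) L d) := by rw [hnd]
            _ = _ := by ring
        rw [h1]
        exact (int_iff _).2 ⟨_, rfl⟩
      have halg : IsAlgebraic ℤ (x / y) :=
        (IsFractionRing.isAlgebraic_iff ℤ ℚ L).2 (Algebra.IsAlgebraic.isAlgebraic (x / y))
      obtain ⟨b, hb0, hb⟩ := halg.exists_integral_multiple
      refine ⟨(b : 𝓞 F), by exact_mod_cast hb0, ?_⟩
      rw [hΛ]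
      obtain ⟨z, hz⟩ := (int_iff _).1 hb
      have h4 : (b : 𝓞 F) • x = z • y := by
        rw [Algebra.smul_def, Algebra.smul_def, hz]
        rw [zsmul_eq_mul, map_intCast]
        field_simp
      rw [h4]
      exact Submodule.smul_mem (KK α) z hy
    · intro x hx
      rw [hΛ] at hx ⊢
      rw [← ht, ← Algebra.smul_def]
      exact Submodule.smul_mem (KK α) t hx
    · intro x hx y hy
      exact top_int hc hint (hprod x hx y hy)
    · intro y hy
      rw [hΛ, mem_KK hα]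
      refine dual_of hα hev ?_
      intro x hx
      apply int_of_top hc hint
      intro k _
      have h5 : x * y / α * θ ^ k = (t ^ k • x) * y / α := by
        rw [Algebra.smul_def, map_pow, ht]
        ring
      rw [h5]
      exact hy _ (Submodule.smul_mem (KK α) (t ^ k) ((mem_KK hα x).2 hx))

end Pool.Agent.L0h57.SP
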