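import Pool.Agent.L0h57.SP.Apx
import Pool.Agent.L0h63.SP.SQ2a

/-!
# SP, module SQW: squares at the odd primes
-/

set_option autoImplicit false
set_option linter.all false

open Polynomial IsDedekindDomain NumberField nonZeroDivisors
open scoped Classical

namespace Pool.Agent.L0h57.SP.SQWM

open Pool.Agent.N783.PF
open Pool.Agent.N874.PP (Ev Sq1 U0)
open Pool.Agent.L0h94.SP
open Pool.Agent.L0h63.SP (dvd_modByMonic comp_O)
open Pool.Agent.L0h57.SP.APX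

section abs

variable {O : Type*} [CommRing O] [IsDomain O]

/-- the iteration `z ↦ u (a - ϖ z ^ 2)`, `2 u = 1` -/
theorem newtonO (ϖ : O) (hlim : ∀ a : ℕ → O, (∀ k, ϖ ^ k ∣ a (k + 1) - a k) →
    ∃ l, ∀ k, ϖ ^ k ∣ l - a k) (hsep : ∀ x : O, (∀ k, ϖ ^ k ∣ x) → x = 0) (u : O)
    (h2 : 2 * u = 1) (f a : O[X]) (hf : f.Monic) :
    ∃ z : O[X], f ∣ 2 * z + C ϖ * z ^ 2 - a := by
  have hu : (2 : O[X]) * C u = 1 := by
    have h3 := congrArg (C : O → O[X]) h2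
    rw [C_mul, C_1] at h3
    exact h3
  obtain ⟨y, hy0, hys⟩ : ∃ y : ℕ → O[X], y 0 = 0 ∧ ∀ k, y (k + 1) =
      (C u * (a - C ϖ * y k ^ 2)) %ₘ f :=
    ⟨fun k => Nat.rec 0 (fun _ y => (C u * (a - C ϖ * y ^ 2)) %ₘ f) k, rfl,
      fun _ => rfl⟩
  have hred : ∀ k, y k %ₘ f = y k := by
    intro k
    rw [modByMonic_eq_self_iff hf]
    rcases k with _ | k
    · rw [hy0, degree_zero]
      exact bot_lt_iff_ne_bot.mpr (fun h => hf.ne_zero (degree_eq_bot.mp h))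
    · rw [hys]; exact degree_modByMonic_lt _ hf
  have hB : ∀ k, C (ϖ ^ k) ∣ y (k + 1) - y k := by
    intro k
    induction k with
    | zero => rw [pow_zero, C_1]; exact one_dvd _
    | succ k ih =>
      have e : y (k + 1 + 1) - y (k + 1) =
          ((y (k + 1) - y k) * C ϖ * (- C u * (y (k + 1) + y k))) %ₘ f := by
        rw [hys (k + 1), hys k, ← sub_modByMonic, ← hys k]
        congr 1
        ring
      rw [e]
      apply dvd_modByMonic
      rw [pow_succ, C_mul]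
      exact (mul_dvd_mul ih dvd_rfl).mul_right _
  -- the limits of the coefficients
  have hl : ∀ i, ∃ l, ∀ k, ϖ ^ k ∣ l - (y k).coeff i := by
    intro i
    apply hlim
    intro k
    have := (C_dvd_iff_dvd_coeff _ _).mp (hB k) i
    rwa [coeff_sub] at this
  choose l hl using hl
  obtain ⟨z, hz⟩ : ∃ z : O[X], z = ∑ i ∈ Finset.range f.natDegree, C (l i) * X ^ i := ⟨_, rfl⟩
  have hzc : ∀ i, z.coeff i = if i < f.natDegree then l i else 0 := by
    intro i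
    rw [hz, finset_sum_coeff]
    simp only [coeff_C_mul, coeff_X_pow, mul_ite, mul_one, mul_zero]
    by_cases hi : i < f.natDegree
    · rw [if_pos hi, Finset.sum_eq_single i]
      · rw [if_pos rfl]
      · intro j _ hj
        rw [if_neg (Ne.symm hj)]
      · intro h
        exact absurd (Finset.mem_range.mpr hi) h
    · rw [if_neg hi]
      apply Finset.sum_eq_zero
      intro j hj
      rw [Finset.mem_range] at hj
      rw [if_neg (by omega)]
  have hzy : ∀ k, C (ϖ ^ k) ∣ z - y k := by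
    intro k
    rw [C_dvd_iff_dvd_coeff]
    intro i
    rw [coeff_sub, hzc]
    by_cases hi : i < f.natDegree
    · rw [if_pos hi]; exact hl i k
    · rw [if_neg hi]
      have h0 : (y k).coeff i = 0 := by
        apply coeff_eq_zero_of_degree_lt
        have h1 : (y k).degree < f.degree := (modByMonic_eq_self_iff hf).mp (hred k)
        refine h1.trans_le (degree_le_natDegree.trans ?_)
        exact_mod_cast not_lt.mp hi
      rw [h0, sub_zero]; exact dvd_zero _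
  refine ⟨z, ?_⟩
  have hk : ∀ k, C (ϖ ^ k) ∣ (z - C u * (a - C ϖ * z ^ 2)) %ₘ f := by
    intro k
    have e : (z - C u * (a - C ϖ * z ^ 2)) %ₘ f =
        (y k - y (k + 1)) + ((z - y k) * (1 + C u * C ϖ * (z + y k))) %ₘ f := by
      have e1 : y k - y (k + 1) = (y k - C u * (a - C ϖ * y k ^ 2)) %ₘ f := by
        rw [sub_modByMonic, hred k, hys k]
      rw [e1, ← add_modByMonic]
      congr 1
      ring
    rw [e]
    refine dvd_add ?_ (dvd_modByMonic _ _ _ ((hzy k).mul_right _))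
    rw [← dvd_neg, neg_sub]
    exact hB k
  have h0 : f ∣ z - C u * (a - C ϖ * z ^ 2) := by
    rw [← modByMonic_eq_zero_iff_dvd hf]
    ext i
    rw [coeff_zero]
    apply hsep
    intro k
    exact (C_dvd_iff_dvd_coeff _ _).mp (hk k) i
  have e : 2 * z + C ϖ * z ^ 2 - a = 2 * (z - C u * (a - C ϖ * z ^ 2)) +
      (1 - 2 * C u) * (C ϖ * z ^ 2 - a) := by ring
  rw [e, hu, sub_self, zero_mul, add_zero]
  exact h0.mul_left _

end abs

section fld

variable {F L : Type} [Field F] [NumberField F] [Field L] [NumberField L] [Algebra F L]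

/-- the common square root at the primes over `w` -/
theorem exists_t (w : HeightOneSpectrum (𝓞 F)) (α : L) (hα : α ≠ 0)
    (h : ∀ 𝔓 : HeightOneSpectrum (𝓞 L), Ov w.asIdeal 𝔓 → Sq1 𝔓 α) :
    ∃ t : L, t ≠ 0 ∧ ∀ 𝔓 : HeightOneSpectrum (𝓞 L), Ov w.asIdeal 𝔓 →
      𝔓.valuation L (α / t ^ 2 - 1) < 1 := by
  choose! s hs using h
  have hfin := ov_fin (L := L) w
  have hs0 : ∀ 𝔓 : HeightOneSpectrum (𝓞 L), Ov w.asIdeal 𝔓 → s 𝔓 ≠ 0 := by
    intro 𝔓 h h0
    have h1 := hs 𝔓 h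
    rw [h0, zero_pow two_ne_zero, sub_zero] at h1
    exact lt_irrefl _ h1
  obtain ⟨t, ht0, ht⟩ := wa_rel hfin.toFinset s (by
    intro 𝔓 h
    rw [Set.Finite.mem_toFinset] at h
    exact hs0 𝔓 h)
  refine ⟨t, ht0, fun 𝔓 h => ?_⟩
  have h1 := ht 𝔓 (by rw [Set.Finite.mem_toFinset]; exact h)
  have h2 := hs 𝔓 h
  have e1 : 𝔓.valuation L (s 𝔓 ^ 2) = 𝔓.valuation L α := by
    have e : s 𝔓 ^ 2 = α - (α - s 𝔓 ^ 2) := by ring
    rw [e]
    exact Valuation.map_sub_eq_of_lt_left _ h2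
  have e2 : 𝔓.valuation L t = 𝔓.valuation L (s 𝔓) := by
    have e : t = s 𝔓 + (t - s 𝔓) := by ring
    rw [e]
    exact Valuation.map_add_eq_of_lt_left _ h1
  have e3 : 𝔓.valuation L (t + s 𝔓) ≤ 𝔓.valuation L (s 𝔓) :=
    (Valuation.map_add _ _ _).trans (max_le e2.le le_rfl)
  have hpos : 0 < 𝔓.valuation L (s 𝔓) := zero_lt_iff.2 ((Valuation.ne_zero_iff _).2 (hs0 𝔓 h))
  have e4 : 𝔓.valuation L (t ^ 2 - s 𝔓 ^ 2) < 𝔓.valuation L α := by
    have e : t ^ 2 - s 𝔓 ^ 2 = (t - s 𝔓) * (t + s 𝔓) := by ring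
    rw [e, map_mul, ← e1, map_pow, sq]
    calc _ ≤ 𝔓.valuation L (t - s 𝔓) * 𝔓.valuation L (s 𝔓) := mul_le_mul' le_rfl e3
      _ < _ := (mul_lt_mul_iff_left₀ hpos).2 h1
  have e5 : 𝔓.valuation L (α - t ^ 2) < 𝔓.valuation L α := by
    have e : α - t ^ 2 = (α - s 𝔓 ^ 2) - (t ^ 2 - s 𝔓 ^ 2) := by ring
    rw [e]
    exact (Valuation.map_sub _ _ _).trans_lt (max_lt h2 e4)
  have e6 : 𝔓.valuation L (t ^ 2) = 𝔓.valuation L α := by rw [← e1, map_pow, map_pow, e2]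
  have e7 : α / t ^ 2 - 1 = (α - t ^ 2) / t ^ 2 := by
    field_simp
  rw [e7, map_div₀, e6]
  exact (div_lt_one₀ (zero_lt_iff.2 ((Valuation.ne_zero_iff _).2 hα))).2 e5

/-- an element of all primes over `w` has a power divisible by `w` -/
theorem pow_mem (w : HeightOneSpectrum (𝓞 F)) (γ : 𝓞 L)
    (h : ∀ 𝔓 : HeightOneSpectrum (𝓞 L), Ov w.asIdeal 𝔓 → γ ∈ 𝔓.asIdeal) :
    ∃ n : ℕ, γ ^ n ∈ w.asIdeal.map (algebraMap (𝓞 F) (𝓞 L)) := by
  have h1 : γ ∈ (w.asIdeal.map (algebraMap (𝓞 F) (𝓞 L))).radical := by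
    rw [Ideal.radical_eq_sInf, Submodule.mem_sInf]
    rintro J ⟨hJ, hJp⟩
    have hJ0 : J ≠ ⊥ := by
      intro h0
      obtain ⟨a, ha, ha0⟩ := Submodule.exists_mem_ne_zero_of_ne_bot w.ne_bot
      have h1 := hJ (Ideal.mem_map_of_mem _ ha)
      rw [h0, Ideal.mem_bot, map_eq_zero_iff _ (FaithfulSMul.algebraMap_injective _ _)] at h1
      exact ha0 h1
    exact h ⟨J, hJp, hJ0⟩ fun a ha => hJ (Ideal.mem_map_of_mem _ ha)
  exact h1

theorem exists_p (w : HeightOneSpectrum (𝓞 F)) : ∃ p : ℕ, p.Prime ∧ (p : 𝓞 F) ∈ w.asIdeal := by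
  haveI := w.isMaximal
  haveI : Finite (𝓞 F ⧸ w.asIdeal) := Ideal.finiteQuotientOfFreeOfNeBot _ w.ne_bot
  obtain ⟨p, hp⟩ := CharP.exists (𝓞 F ⧸ w.asIdeal)
  haveI : IsDomain (𝓞 F ⧸ w.asIdeal) := Ideal.Quotient.isDomain _
  refine ⟨p, CharP.char_is_prime (𝓞 F ⧸ w.asIdeal) p, ?_⟩
  rw [← Ideal.Quotient.eq_zero_iff_mem, map_natCast]
  exact CharP.cast_eq_zero _ _

/-- elements of `F` prime to `w` are units of the complete ring -/
theorem unit_O (w : HeightOneSpectrum (𝓞 F)) {a : 𝓞 F} (ha : a ∉ w.asIdeal) :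
    IsUnit (algebraMap (𝓞 F) (w.adicCompletionIntegers F) a) := by
  have hO := HeightOneSpectrum.adicCompletionIntegers.integers (K := F) (v := w)
  apply hO.isUnit_of_one'
  have h1 : Valued.v ((algebraMap (𝓞 F) (w.adicCompletionIntegers F) a :
      w.adicCompletionIntegers F) : w.adicCompletion F) = w.valuation F (algebraMap (𝓞 F) F a) :=
    HeightOneSpectrum.valuedAdicCompletion_eq_valuation' w (algebraMap (𝓞 F) F a)
  refine h1.trans ?_
  exact (HeightOneSpectrum.valuation_eq_one_iff_notMem w).2 ha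

variable {g : ℕ} {f : (𝓞 F)[X]} {θ : L}

theorem gen_exists (hG : IsGen g f θ) (x : L) : ∃ P : F[X], aeval θ P = x := by
  obtain ⟨c, hc⟩ := hG.gen x
  refine ⟨∑ i, C (c i) * X ^ (i : ℕ), ?_⟩
  rw [hc, map_sum]
  apply Finset.sum_congr rfl
  intro i _
  rw [map_mul, aeval_C, map_pow, aeval_X]

theorem gen_dvd (hG : IsGen g f θ) (P : F[X]) (h : aeval θ P = 0) : fF f ∣ P := by
  have hm : (fF f).Monic := hG.mon.map _
  rw [← modByMonic_eq_zero_iff_dvd hm]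
  have hd : (fF f).natDegree = 2 * g + 1 := by
    rw [fF, hG.mon.natDegree_map, hG.deg]
  obtain ⟨Q, hQ⟩ : ∃ Q : F[X], Q = P %ₘ fF f := ⟨_, rfl⟩
  have hQ0 : aeval θ Q = 0 := by
    rw [hQ, aeval_modByMonic_eq_self_of_root hG.root, h]
  have hQd : Q.natDegree < 2 * g + 1 := by
    rw [hQ, ← hd]
    apply natDegree_modByMonic_lt _ hm
    intro h1
    rw [h1, natDegree_one] at hd
    omega
  have h1 : ∑ i : Fin (2 * g + 1), Q.coeff i • hG.basis i = 0 := by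
    rw [aeval_eq_sum_range' hQd, Finset.sum_range] at hQ0
    rw [← hQ0]
    apply Finset.sum_congr rfl
    intro i _
    rw [hG.basis_apply]
  have h2 := Fintype.linearIndependent_iff.mp hG.basis.linearIndependent _ h1
  rw [← hQ]
  ext i
  rw [coeff_zero]
  by_cases hi : i < 2 * g + 1
  · exact h2 ⟨i, hi⟩
  · exact coeff_eq_zero_of_natDegree_lt (by omega)

/-- elements of `w 𝓞 L` are polynomials in `θ` with coefficients in `w` -/
theorem exists_polyw (hI : S_INT) (hG : IsGen g f θ) (hs : SqF g f) (w : HeightOneSpectrum (𝓞 F))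
    {ρ : 𝓞 L} (hρ : ρ ∈ w.asIdeal.map (algebraMap (𝓞 F) (𝓞 L))) :
    ∃ r : (𝓞 F)[X], (∀ i, r.coeff i ∈ w.asIdeal) ∧ aeval θ (fF r) = algebraMap (𝓞 L) L ρ := by
  unfold Ideal.map at hρ
  induction hρ using Submodule.span_induction with
  | mem x hx =>
    obtain ⟨a, ha, rfl⟩ := hx
    refine ⟨C a, ?_, ?_⟩
    · intro i
      rw [coeff_C]
      split_ifs
      · exact ha
      · exact zero_mem _
    · rw [fF, map_C, aeval_C]
      rfl
  | zero => exact ⟨0, by simp, by simp [fF]⟩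
  | add x y _ _ hx hy =>
    obtain ⟨r1, h1, h1'⟩ := hx
    obtain ⟨r2, h2, h2'⟩ := hy
    refine ⟨r1 + r2, ?_, ?_⟩
    · intro i
      rw [coeff_add]
      exact add_mem (h1 i) (h2 i)
    · rw [fF, Polynomial.map_add, map_add, map_add]
      rw [fF] at h1' h2'
      rw [h1', h2']
  | smul a x _ hx =>
    obtain ⟨r1, h1, h1'⟩ := hx
    obtain ⟨p, hp⟩ := exists_poly hI hG hs (x := algebraMap (𝓞 L) L a) ((int_iff _).2 ⟨a, rfl⟩)
    refine ⟨p * r1, ?_, ?_⟩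
    · intro i
      rw [coeff_mul]
      exact sum_mem fun j _ => Ideal.mul_mem_left _ _ (h1 _)
    · rw [fF, Polynomial.map_mul, map_mul, smul_eq_mul, map_mul]
      rw [fF] at h1' hp
      rw [h1', hp]

end fld

theorem t_SQW (hI : S_INT) : S_SQW := by
  intro g F L _ _ _ _ _ f θ hg hG hf w h2w h hh hN
  obtain ⟨t, ht0, ht⟩ := exists_t w (aeval θ h) hh hN
  obtain ⟨β, hβ⟩ : ∃ β : L, β = aeval θ h / t ^ 2 := ⟨_, rfl⟩
  rw [← hβ] at ht
  have hβ0 : β ≠ 0 := by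
    rw [hβ]; exact div_ne_zero hh (pow_ne_zero 2 ht0)
  obtain ⟨d, hd, hdi⟩ := exists_den w (β - 1) (fun 𝔓 h𝔓 => (ht 𝔓 h𝔓).le)
  obtain ⟨γ, hγ⟩ := (int_iff _).1 hdi
  have hd0 : (algebraMap F L (d : F)) ≠ 0 := by
    rw [Ne, map_eq_zero_iff _ (algebraMap F L).injective]
    intro h0
    have h1 : d = 0 := by exact_mod_cast h0
    exact hd (h1 ▸ zero_mem _)
  have hγm : ∀ 𝔓 : HeightOneSpectrum (𝓞 L), Ov w.asIdeal 𝔓 → γ ∈ 𝔓.asIdeal := by
    intro 𝔓 h𝔓
    rw [← HeightOneSpectrum.valuation_lt_one_iff_mem (K := L)]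
    change 𝔓.valuation L (algebraMap (𝓞 L) L γ) < 1
    rw [hγ, map_mul, val_unit h𝔓 hd, one_mul]
    exact ht 𝔓 h𝔓
  obtain ⟨n, hn⟩ := pow_mem w γ hγm
  obtain ⟨p, hp, hpw⟩ := exists_p w
  have hodd : Odd p := by
    rcases hp.eq_two_or_odd' with h2 | h2
    · rw [h2] at hpw
      exact absurd (by exact_mod_cast hpw) h2w
    · exact h2
  obtain ⟨k, hk⟩ : Odd (p ^ n) := hodd.pow
  -- the power is congruent to a constant
  obtain ⟨dL, hdL⟩ : ∃ dL : 𝓞 L, dL = algebraMap (𝓞 F) (𝓞 L) d := ⟨_, rfl⟩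
  obtain ⟨r0, hr0⟩ := exists_add_pow_prime_pow_eq hp dL γ n
  have hε : (dL + γ) ^ p ^ n - dL ^ p ^ n ∈ w.asIdeal.map (algebraMap (𝓞 F) (𝓞 L)) := by
    rw [hr0]
    have e : dL ^ p ^ n + γ ^ p ^ n + (p : 𝓞 L) * dL * γ * r0 - dL ^ p ^ n =
        γ ^ p ^ n + (p : 𝓞 L) * (dL * γ * r0) := by ring
    rw [e]
    refine add_mem ?_ (Ideal.mul_mem_right _ _ ?_)
    · exact Ideal.mem_of_dvd _ (pow_dvd_pow γ (Nat.lt_pow_self hp.one_lt).le) hn
    · have := Ideal.mem_map_of_mem (algebraMap (𝓞 F) (𝓞 L)) hpw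
      rwa [map_natCast] at this
  obtain ⟨r, hr1, hr2⟩ := exists_polyw hI hG hf w hε
  obtain ⟨Δ, hΔ⟩ := exists_poly hI hG hf (x := algebraMap (𝓞 L) L (dL + γ)) ((int_iff _).2 ⟨_, rfl⟩)
  have hδ : algebraMap (𝓞 L) L (dL + γ) = algebraMap F L (d : F) * β := by
    rw [map_add, hγ, hdL]
    have e : algebraMap (𝓞 L) L (algebraMap (𝓞 F) (𝓞 L) d) = algebraMap F L (d : F) := rfl
    rw [e]
    ring
  have e1 : f ∣ Δ ^ p ^ n - C (d ^ p ^ n) - r := by
    apply dvd_of hG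
    have e : aeval θ (fF (Δ ^ p ^ n - C (d ^ p ^ n) - r)) = aeval θ (fF Δ) ^ p ^ n -
        algebraMap F L (d : F) ^ p ^ n - aeval θ (fF r) := by
      simp only [fF, Polynomial.map_sub, Polynomial.map_pow, map_sub, map_pow, Polynomial.map_C,
        aeval_C]
    rw [e, hΔ, hr2, map_sub, map_pow, map_pow, hdL]
    have e : algebraMap (𝓞 L) L (algebraMap (𝓞 F) (𝓞 L) d) = algebraMap F L (d : F) := rfl
    rw [e]
    ring
  obtain ⟨T, hT⟩ := gen_exists hG t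
  obtain ⟨U, hU⟩ := gen_exists hG β⁻¹
  have e2 : fF f ∣ C ((d : F) ^ p ^ n) * h - fF Δ ^ p ^ n * (U ^ k * T) ^ 2 := by
    apply gen_dvd hG
    simp only [map_sub, map_mul, aeval_C, map_pow, hT, hU, hΔ, hδ]
    have h1 : aeval θ h = β * t ^ 2 := by
      rw [hβ]; field_simp
    have h2 : (algebraMap F L (d : F) * β) ^ p ^ n * (β⁻¹ ^ k * t) ^ 2 =
        algebraMap F L (d : F) ^ p ^ n * (β * (β * β⁻¹) ^ (2 * k) * t ^ 2) := by
      rw [mul_pow, hk]
      ring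
    rw [h1, h2, mul_inv_cancel₀ hβ0, one_pow]
    ring
  -- the completion
  obtain ⟨ϖ, hlim, hsep, hϖ⟩ := comp_O (F := F) w
  obtain ⟨ι, hι⟩ : ∃ ι : 𝓞 F →+* w.adicCompletionIntegers F,
    ι = algebraMap (𝓞 F) (w.adicCompletionIntegers F) := ⟨_, rfl⟩
  obtain ⟨κ, hκ⟩ : ∃ κ : w.adicCompletionIntegers F →+* w.adicCompletion F,
    κ = algebraMap (w.adicCompletionIntegers F) (w.adicCompletion F) := ⟨_, rfl⟩
  obtain ⟨u, hu⟩ := (unit_O (F := F) w (a := 2) h2w).exists_right_inv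
  rw [map_ofNat] at hu
  obtain ⟨D', hD'⟩ := (unit_O (F := F) w hd).exists_right_inv
  rw [← hι] at hD'
  obtain ⟨a, ha⟩ : C ϖ ∣ r.map ι := by
    rw [C_dvd_iff_dvd_coeff]
    intro i
    rw [coeff_map, hι]
    exact hϖ _ (hr1 i)
  obtain ⟨z, hz⟩ := newtonO ϖ hlim hsep u hu (f.map ι) (a * C (D' ^ p ^ n)) (hG.mon.map _)
  have e3 : f.map ι ∣ Δ.map ι ^ p ^ n - C (ι d ^ p ^ n) * (1 + C ϖ * z) ^ 2 := by
    have h1 := Polynomial.map_dvd ι e1
    simp only [Polynomial.map_sub, Polynomial.map_pow, Polynomial.map_C, map_pow ι] at h1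
    have h3 : C (ι d ^ p ^ n) * C (D' ^ p ^ n) = 1 := by
      rw [← C_mul, ← mul_pow, hD', one_pow, C_1]
    have e : Δ.map ι ^ p ^ n - C (ι d ^ p ^ n) * (1 + C ϖ * z) ^ 2 =
        (Δ.map ι ^ p ^ n - C (ι d ^ p ^ n) - r.map ι) -
          C ϖ * C (ι d ^ p ^ n) * (2 * z + C ϖ * z ^ 2 - a * C (D' ^ p ^ n)) := by
      rw [ha]
      linear_combination (- (C ϖ * a)) * h3
    rw [e]
    exact dvd_sub h1 (hz.mul_left _)
  have hmap : ∀ P : (𝓞 F)[X], (P.map ι).map κ =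
      (fF P).map (algebraMap F (w.adicCompletion F)) := by
    intro P
    rw [fF, Polynomial.map_map, Polynomial.map_map, hι, hκ]
    rfl
  have e3' := Polynomial.map_dvd κ e3
  have e2' := Polynomial.map_dvd (algebraMap F (w.adicCompletion F)) e2
  have hc : κ (ι d) = algebraMap F (w.adicCompletion F) (d : F) := by
    rw [hι, hκ]
    rfl
  simp only [Polynomial.map_sub, Polynomial.map_add, Polynomial.map_mul, Polynomial.map_pow,
    Polynomial.map_one, Polynomial.map_C, map_pow, hmap, hc] at e3' e2'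
  obtain ⟨c, hc⟩ : ∃ c, c = algebraMap F (w.adicCompletion F) (d : F) := ⟨_, rfl⟩
  have hc0 : c ≠ 0 := by
    rw [hc, Ne, map_eq_zero_iff _ (algebraMap F (w.adicCompletion F)).injective]
    intro h0
    have h1 : d = 0 := by exact_mod_cast h0
    exact hd (h1 ▸ zero_mem _)
  rw [← hc] at e3' e2'
  obtain ⟨σ, hσ⟩ : ∃ σ, σ = 1 + C (κ ϖ) * z.map κ := ⟨_, rfl⟩
  rw [← hσ] at e3'
  obtain ⟨V, hV⟩ : ∃ V, V = U.map (algebraMap F (w.adicCompletion F)) ^ k *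
    T.map (algebraMap F (w.adicCompletion F)) := ⟨_, rfl⟩
  rw [← hV] at e2'
  refine ⟨σ * V, ?_⟩
  have h4 : (C (c ^ p ^ n)⁻¹ : (w.adicCompletion F)[X]) * C c ^ p ^ n = 1 := by
    rw [← C_pow, ← C_mul, inv_mul_cancel₀ (pow_ne_zero _ hc0), C_1]
  have e : h.map (algebraMap F (w.adicCompletion F)) - (σ * V) ^ 2 =
      C (c ^ p ^ n)⁻¹ * ((C c ^ p ^ n * h.map (algebraMap F (w.adicCompletion F)) -
        (fF Δ).map (algebraMap F (w.adicCompletion F)) ^ p ^ n * V ^ 2) +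
        ((fF Δ).map (algebraMap F (w.adicCompletion F)) ^ p ^ n - C c ^ p ^ n * σ ^ 2) * V ^ 2) := by
    linear_combination (σ ^ 2 * V ^ 2 - h.map (algebraMap F (w.adicCompletion F))) * h4
  rw [e]
  exact (dvd_add e2' (e3'.mul_right _)).mul_left _

end Pool.Agent.L0h57.SP.SQWM
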